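import Mathlib

namespace Pool.Agent.Helper99.Harb

open Finset

/-- Greedy choice. -/
theorem greedy {α : Type} [DecidableEq α] (P : Finset α) (ω : α → ℕ) (b : ℕ) (hb : 1 ≤ b)
    (h1 : ∀ o ∈ P, 1 ≤ ω o) (h2 : ∀ o ∈ P, ω o ≤ b - 1) (hP : b ≤ P.card) :
    ∃ T ⊆ P, b ≤ ∑ o ∈ T, ω o ∧ ∑ o ∈ T, ω o ≤ 2 * b - 2 ∧ T.card ≤ b := by
  classical
  have hsum : ∀ S ⊆ P, S.card ≤ ∑ o ∈ S, ω o := by
    intro S hS
    calc S.card = ∑ o ∈ S, 1 := by simp
      _ ≤ _ := sum_le_sum fun o ho => h1 o (hS ho)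
  have hne : (P.powerset.filter fun T => b ≤ ∑ o ∈ T, ω o).Nonempty :=
    ⟨P, mem_filter.2 ⟨mem_powerset.2 Subset.rfl, hP.trans (hsum P Subset.rfl)⟩⟩
  obtain ⟨T, hT, hmin⟩ := exists_min_image _ card hne
  obtain ⟨hTP, hTb⟩ := mem_filter.1 hT
  rw [mem_powerset] at hTP
  have hTne : T.Nonempty := by
    by_contra h
    rw [not_nonempty_iff_eq_empty] at h
    rw [h, sum_empty] at hTb; omega
  refine ⟨T, hTP, hTb, ?_, ?_⟩
  · obtain ⟨o, ho⟩ := hTne
    have h3 : ∑ x ∈ T.erase o, ω x < b := by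
      by_contra hlt
      have := hmin (T.erase o) (mem_filter.2 ⟨mem_powerset.2 ((erase_subset _ _).trans hTP),
        not_lt.1 hlt⟩)
      have h4 := card_erase_lt_of_mem ho
      omega
    have h5 := add_sum_erase T ω ho
    have h6 := h2 o (hTP ho)
    omega
  · obtain ⟨S, hS, hSc⟩ := exists_subset_card_eq hP
    have := hmin S (mem_filter.2 ⟨mem_powerset.2 hS, by
      have := hsum S hS; omega⟩)
    omega

/-- The combinatorial step for the two cosets of a subgroup of index `2 m`. -/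
theorem levels {α : Type} [DecidableEq α] (m t ζ : ℕ) (hm : 3 ≤ m) (ht : 3 * m ≤ 2 * t + 1)
    (ht2 : t + 2 ≤ 2 * m) (hζ : t + 1 ≤ ζ) (hζ2 : ζ < 2 * m) (O : Finset α) (hO : t ≤ O.card)
    (l : α → ℕ) (hl : ∀ o ∈ O, 2 ≤ l o ∧ l o < 2 * m) :
    ∃ T ⊆ O, T.card + 2 ≤ t ∧ ∃ i ≤ t - T.card,
      ((2 * m : ℕ) : ℤ) ∣ (ζ : ℤ) - ((∑ o ∈ T, l o : ℕ) : ℤ) - (i : ℤ) := by
  classical
  by_cases hone : ∃ o ∈ O, ∃ i ≤ t - 1, ((2 * m : ℕ) : ℤ) ∣ (ζ : ℤ) - (l o : ℤ) - (i : ℤ)
  · obtain ⟨o, ho, i, hi, hd⟩ := hone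
    exact ⟨{o}, singleton_subset_iff.2 ho, by rw [card_singleton]; omega, i,
      by rw [card_singleton]; exact hi, by rw [sum_singleton]; exact hd⟩
  push Not at hone
  -- the levels are small positive or small negative
  have hlo : ∀ o ∈ O, ζ < l o ∨ l o ≤ ζ - t := by
    intro o ho
    by_contra hcon
    push Not at hcon
    obtain ⟨c1, c2⟩ := hcon
    apply hone o ho (ζ - l o) (by omega)
    rw [Nat.cast_sub c1]
    simp
  set s := 2 * m - ζ with hs
  set w := ζ - t with hw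
  set N := O.filter fun o => ζ < l o with hN
  set P := O.filter fun o => ¬ ζ < l o with hP
  have hNP : N.card + P.card = O.card := card_filter_add_card_filter_not (s := O) (fun o => ζ < l o)
  have hor : s ≤ N.card ∨ w ≤ P.card := by omega
  rcases hor with h | h
  · obtain ⟨T, hT, t1, t2, t3⟩ := greedy N (fun o => 2 * m - l o) s (by omega)
      (fun o ho => by have := hl o (mem_filter.1 ho).1; omega)
      (fun o ho => by have := (mem_filter.1 ho).2; omega) h
    refine ⟨T, hT.trans (filter_subset _ _), by omega, (∑ o ∈ T, (2 * m - l o)) - s, by omega, ?_⟩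
    have e1 : (∑ o ∈ T, (2 * m - l o)) + ∑ o ∈ T, l o = 2 * m * T.card := by
      rw [← sum_add_distrib, sum_congr rfl fun o ho => Nat.sub_add_cancel
        (hl o (mem_filter.1 (hT ho)).1).2.le, sum_const, smul_eq_mul, mul_comm]
    rw [Nat.cast_sub t1]
    have e2 : ((∑ o ∈ T, (2 * m - l o) : ℕ) : ℤ) + ((∑ o ∈ T, l o : ℕ) : ℤ) = 2 * m * T.card := by
      exact_mod_cast e1
    have e3 : (s : ℤ) = 2 * m - ζ := by rw [hs]; push_cast [Nat.cast_sub hζ2.le]; ring
    refine ⟨1 - T.card, ?_⟩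
    push_cast at e2 ⊢
    linear_combination (-1 : ℤ) * e2 + e3
  · obtain ⟨T, hT, t1, t2, t3⟩ := greedy P (fun o => l o - 1) w (by omega)
      (fun o ho => by have := hl o (mem_filter.1 ho).1; omega)
      (fun o ho => by
        have h3 := (mem_filter.1 ho).2
        rcases hlo o (mem_filter.1 ho).1 with h4 | h4
        · exact absurd h4 h3
        · omega) h
    have e1 : ∑ o ∈ T, l o = ∑ o ∈ T, (l o - 1) + T.card := by
      rw [card_eq_sum_ones, ← sum_add_distrib]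
      exact sum_congr rfl fun o ho => by
        have := hl o (mem_filter.1 (hT ho)).1; omega
    refine ⟨T, hT.trans (filter_subset _ _), by omega, ζ - ∑ o ∈ T, l o, by omega, ?_⟩
    rw [Nat.cast_sub (by omega)]
    simp

end Pool.Agent.Helper99.Harb
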