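import Mathlib
import Pool.Graph.R_pool_sql_team_ae5b0c61.H25.HarbDefs

namespace Pool.Agent.Helper99.Harb

open Finset H25.Harb

/-- A character with a value of order `q` and a kernel of order at least `|G| / q`. -/
theorem quot (G : Type) [AddCommGroup G] [Fintype G] [DecidableEq G] (q : ℕ) (hq0 : 0 < q)
    (hq : q ∣ AddMonoid.exponent G) :
    ∃ (ψ : AddChar G ℂ) (e : G), orderOf (ψ e) = q ∧
      Fintype.card G ≤ q * (univ.filter fun g => ψ g = 1).card ∧
      ∀ g : G, ∃ n < q, ψ g = (ψ e) ^ n := by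
  classical
  obtain ⟨χ, hχ⟩ := Monoid.exists_orderOf_eq_exponent
    (Monoid.ExponentExists.of_finite (G := AddChar G ℂ))
  have hdvd : AddMonoid.exponent G ∣ Monoid.exponent (AddChar G ℂ) := by
    apply AddMonoid.exponent_dvd_of_forall_nsmul_eq_zero
    intro g
    rw [← AddChar.forall_apply_eq_zero]
    intro ψ
    rw [AddChar.map_nsmul_eq_pow, ← AddChar.pow_apply, Monoid.pow_exponent_eq_one]
    rfl
  obtain ⟨u, hu⟩ := hq.trans hdvd
  have hu0 : 0 < Monoid.exponent (AddChar G ℂ) := Monoid.exponent_pos.2 Monoid.ExponentExists.of_finite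
  have hup : 0 < u := Nat.pos_of_mul_pos_left (hu ▸ hu0)
  set ψ := χ ^ u with hψ
  have ho : orderOf ψ = q := by
    rw [hψ, orderOf_pow_of_dvd hup.ne' (by rw [hχ, hu]; exact dvd_mul_left _ _), hχ, hu,
      Nat.mul_div_cancel _ hup]
  let f : Multiplicative G →* ℂˣ := ψ.toMonoidHom.toHomUnits
  have hfv : ∀ g : G, ((f (Multiplicative.ofAdd g) : ℂˣ) : ℂ) = ψ g := fun g => rfl
  have hcyc : IsCyclic f.range := isCyclic_subgroup_units _
  obtain ⟨⟨v, hv⟩, hgen⟩ := hcyc.exists_generator
  obtain ⟨e, rfl⟩ := hv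
  have hz : ∀ g : G, ∃ z : ℤ, ψ g = (ψ (Multiplicative.toAdd e)) ^ z := by
    intro g
    obtain ⟨z, hz⟩ := Subgroup.mem_zpowers_iff.1 (hgen ⟨f (Multiplicative.ofAdd g), ⟨_, rfl⟩⟩)
    have hz' : (f e) ^ z = f (Multiplicative.ofAdd g) := congrArg Subtype.val hz
    refine ⟨z, ?_⟩
    rw [← hfv g, ← hz', Units.val_zpow_eq_zpow_val]; rfl
  have hord : orderOf (ψ (Multiplicative.toAdd e)) = q := by
    have h1 : ∀ b : ℕ, (ψ (Multiplicative.toAdd e)) ^ b = 1 ↔ q ∣ b := by
      intro b
      rw [← ho, orderOf_dvd_iff_pow_eq_one]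
      constructor
      · intro h
        ext g
        rw [AddChar.pow_apply]
        obtain ⟨z, this⟩ := hz g
        rw [this, ← zpow_natCast, ← zpow_mul, mul_comm, zpow_mul, zpow_natCast, h, one_zpow]
        rfl
      · intro h
        have := DFunLike.congr_fun h (Multiplicative.toAdd e)
        rwa [AddChar.pow_apply] at this
    apply Nat.dvd_antisymm
    · exact orderOf_dvd_of_pow_eq_one ((h1 q).2 dvd_rfl)
    · exact (h1 _).1 (pow_orderOf_eq_one _)
  refine ⟨ψ, Multiplicative.toAdd e, hord, ?_, ?_⟩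
  · have h1 : (univ : Finset G).card ≤ (univ.filter fun g : G => ψ g = 1).card * (univ.image ψ).card := by
      apply card_le_mul_card_image
      intro a ha
      obtain ⟨g0, -, rfl⟩ := mem_image.1 ha
      apply card_le_card_of_injOn (fun g => g - g0) _ sub_left_injective.injOn
      intro g hg
      have hg' : ψ g = ψ g0 := (mem_filter.1 (mem_coe.1 hg)).2
      refine mem_coe.2 (mem_filter.2 ⟨mem_univ _, ?_⟩)
      rw [AddChar.map_sub_eq_div, hg', div_self]
      intro h0
      have := ψ.map_add_eq_mul g0 (-g0)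
      rw [add_neg_cancel, ψ.map_zero_eq_one, h0, zero_mul] at this
      exact one_ne_zero this
    rw [card_univ] at h1
    have h2 : (univ.image ψ).card ≤ q := by
      have : univ.image ψ ⊆ (Polynomial.nthRootsFinset q (1 : ℂ)) := by
        intro a ha
        obtain ⟨g0, -, rfl⟩ := mem_image.1 ha
        rw [Polynomial.mem_nthRootsFinset hq0, ← AddChar.pow_apply, ← ho, pow_orderOf_eq_one]
        rfl
      refine (card_le_card this).trans ?_
      rw [Polynomial.nthRootsFinset_def]
      exact (Multiset.toFinset_card_le _).trans (Polynomial.card_nthRoots _ _)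
    calc Fintype.card G ≤ _ := h1
      _ ≤ (univ.filter fun g : G => ψ g = 1).card * q := Nat.mul_le_mul_left _ h2
      _ = _ := mul_comm _ _
  · intro g
    obtain ⟨z, hz⟩ := hz g
    have hq1 : (0 : ℤ) < q := by exact_mod_cast hq0
    refine ⟨(z % q).toNat, ?_, ?_⟩
    · have := Int.emod_lt_of_pos z hq1
      omega
    · have h3 : ((z % q).toNat : ℤ) = z % q := Int.toNat_of_nonneg (Int.emod_nonneg z hq1.ne')
      rw [← zpow_natCast, h3, hz]
      have h4 : z = z % q + q * (z / q) := (Int.emod_add_mul_ediv z q).symm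
      have h5 : ψ (Multiplicative.toAdd e) ≠ 0 := by
        intro h0
        have := pow_orderOf_eq_one (ψ (Multiplicative.toAdd e))
        rw [hord, h0, zero_pow hq0.ne'] at this
        exact zero_ne_one this
      conv_lhs => rw [h4]
      rw [zpow_add₀ h5, zpow_mul, zpow_natCast]
      have h6 := pow_orderOf_eq_one (ψ (Multiplicative.toAdd e))
      rw [hord] at h6
      rw [h6, one_zpow, mul_one]

theorem char_sum {G : Type} [AddCommGroup G] [DecidableEq G] (ψ : AddChar G ℂ) (S : Finset G) :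
    ψ (∑ x ∈ S, x) = ∏ x ∈ S, ψ x := by
  induction S using Finset.induction_on with
  | empty => simp
  | insert a s ha ih => rw [sum_insert ha, prod_insert ha, AddChar.map_add_eq_mul, ih]

theorem lower (G : Type) [AddCommGroup G] [Fintype G] [DecidableEq G] (m κ q t : ℕ)
    (hG : Fintype.card G = m * κ) (hκ : AddMonoid.exponent G = κ) (hq : q ∣ κ) (ht : t + 2 ≤ q)
    (hqm : q < 2 * m) (hbig : q * (q + t) ≤ κ) :
    ∃ A : Finset G, WeakFree A κ ∧ A.card = κ + t := by
  obtain ⟨ψ, e, he, hH, -⟩ := quot G q (by omega) (hκ ▸ hq)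
  obtain ⟨k, rfl⟩ := hq
  have hk : q + t ≤ k := Nat.le_of_mul_le_mul_left hbig (by omega)
  set H := univ.filter fun g => ψ g = 1 with hHdef
  have hHc : m * k ≤ H.card := by
    rw [hG] at hH
    have : q * (m * k) ≤ q * H.card := by rw [show q * (m * k) = m * (q * k) by ring]; exact hH
    exact Nat.le_of_mul_le_mul_left this (by omega)
  have hH1 : H.card ≤ (univ.filter fun g => ψ g = ψ e).card := by
    apply card_le_card_of_injOn (fun g => g + e) _ (add_left_injective e).injOn
    intro g hg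
    have hg' : ψ g = 1 := (mem_filter.1 (mem_coe.1 hg)).2
    refine mem_coe.2 (mem_filter.2 ⟨mem_univ _, ?_⟩)
    rw [AddChar.map_add_eq_mul, hg', one_mul]
  -- the number of elements over `e`
  obtain ⟨b, b1, b2, b3, b4⟩ : ∃ b, b ≤ m * k ∧ b ≤ q * k + t ∧ q * k + t - b ≤ m * k ∧
      q ∣ b + 1 := by
    set L := q * k + t - m * k with hL
    have hdm := Nat.div_add_mod L q
    have hml := Nat.mod_lt L (show 0 < q by omega)
    have hqk : k ≤ q * k := Nat.le_mul_of_pos_left _ (by omega)
    have hmk : q * k + k ≤ m * k + m * k := by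
      have := Nat.mul_le_mul_right k (show q + 1 ≤ m + m by omega)
      nlinarith
    have hmk' : k ≤ m * k := Nat.le_mul_of_pos_left _ (by omega)
    refine ⟨q * (L / q) + (q - 1), by omega, by omega, by omega, ⟨L / q + 1, ?_⟩⟩
    rw [mul_add, mul_one]; omega
  obtain ⟨A0, hA0, c0⟩ := exists_subset_card_eq (s := H) (n := q * k + t - b) (by omega)
  obtain ⟨A1, hA1, c1⟩ := exists_subset_card_eq (s := univ.filter fun g => ψ g = ψ e) (n := b)
    (by omega)
  have v0 : ∀ g ∈ A0, ψ g = 1 := fun g hg => (mem_filter.1 (hA0 hg)).2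
  have v1 : ∀ g ∈ A1, ψ g = ψ e := fun g hg => (mem_filter.1 (hA1 hg)).2
  have hne : ψ e ≠ 1 := fun h => by rw [h, orderOf_one] at he; omega
  have hdis : Disjoint A0 A1 := by
    rw [disjoint_left]
    intro g h0 h1
    exact hne ((v1 g h1).symm.trans (v0 g h0))
  have hcard : (A0 ∪ A1).card = q * k + t := by
    rw [card_union_of_disjoint hdis, c0, c1]; omega
  refine ⟨A0 ∪ A1, ?_, hcard⟩
  intro S hS hSc h0
  have hval : ψ (∑ x ∈ S, x) = (ψ e) ^ (S ∩ A1).card := by
    rw [char_sum, ← prod_filter_mul_prod_filter_not S (fun g => g ∈ A1)]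
    have e1 : ∏ g ∈ S with g ∈ A1, ψ g = (ψ e) ^ (S ∩ A1).card := by
      rw [filter_mem_eq_inter, prod_congr rfl fun g hg => v1 g (mem_inter.1 hg).2, prod_const]
    have e2 : ∏ g ∈ S with g ∉ A1, ψ g = 1 := by
      apply prod_eq_one
      intro g hg
      obtain ⟨g1, g2⟩ := mem_filter.1 hg
      rcases mem_union.1 (hS g1) with h | h
      · exact v0 g h
      · exact absurd h g2
    rw [e1, e2, mul_one]
  rw [h0, AddChar.map_zero_eq_one] at hval
  have hdvd : q ∣ (S ∩ A1).card := by
    rw [← he]; exact orderOf_dvd_of_pow_eq_one hval.symm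
  have e3 : (A1 \ S).card ≤ t := by
    have h1 : A1 \ S ⊆ (A0 ∪ A1) \ S := sdiff_subset_sdiff subset_union_right le_rfl
    have h2 := card_le_card h1
    rw [card_sdiff_of_subset hS, hcard, hSc] at h2
    omega
  have e4 : (S ∩ A1).card + (A1 \ S).card = b := by
    rw [← c1, inter_comm]; exact card_inter_add_card_sdiff A1 S
  have e5 : q ∣ (A1 \ S).card + 1 := by
    have : b + 1 = (S ∩ A1).card + ((A1 \ S).card + 1) := by omega
    rw [this] at b4
    exact (Nat.dvd_add_right hdvd).1 b4
  have := Nat.le_of_dvd (by omega) e5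
  omega

end Pool.Agent.Helper99.Harb
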