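import Mathlib
import Pool.Agent.Helper99.Harb.Lower

namespace Pool.Agent.Helper99.Harb

open Finset H25.Harb

theorem lower2 (G : Type) [AddCommGroup G] [Fintype G] [DecidableEq G] (m κ : ℕ) (hm : 2 ≤ m)
    (hG : Fintype.card G = m * κ) (hκ : AddMonoid.exponent G = κ) (hbig : 2 * m * m ≤ κ) :
    ∃ A : Finset G, WeakFree A κ ∧ A.card = κ + (m - 1) := by
  classical
  have hκ0 : 0 < κ := by nlinarith
  obtain ⟨ψ, e, he, hH, hcov⟩ := quot G κ hκ0 (hκ ▸ dvd_rfl)
  have hHm : m ≤ (univ.filter fun g => ψ g = 1).card := by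
    rw [hG, mul_comm] at hH; exact Nat.le_of_mul_le_mul_left hH hκ0
  choose lev hlev1 hlev2 using hcov
  have hlev3 : ∀ g i, i < κ → ψ g = ψ e ^ i → lev g = i := by
    intro g i hi h
    have := hlev2 g
    rw [h] at this
    exact (pow_injOn_Iio_orderOf (Set.mem_Iio.2 (by rw [he]; exact hi))
      (Set.mem_Iio.2 (by rw [he]; exact hlev1 g)) this).symm
  have hF : ∀ i, ∃ F : Finset G, i < κ → (∀ g ∈ F, lev g = i) ∧ F.card = m := by
    intro i
    by_cases hi : i < κ
    · have h1 : m ≤ (univ.filter fun g => lev g = i).card := by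
        refine hHm.trans (card_le_card_of_injOn (fun g => g + i • e) ?_ (add_left_injective _).injOn)
        intro g hg
        have hg' : ψ g = 1 := (mem_filter.1 (mem_coe.1 hg)).2
        refine mem_coe.2 (mem_filter.2 ⟨mem_univ _, hlev3 _ i hi ?_⟩)
        rw [AddChar.map_add_eq_mul, hg', one_mul, AddChar.map_nsmul_eq_pow]
      obtain ⟨F, hF, hc⟩ := exists_subset_card_eq h1
      exact ⟨F, fun _ => ⟨fun g hg => (mem_filter.1 (hF hg)).2, hc⟩⟩
    · exact ⟨∅, fun h => absurd h hi⟩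
  choose F hF using hF
  obtain ⟨a, p, hap, hpm⟩ : ∃ a p, m * a + p = κ + 2 * m - 1 ∧ p < m :=
    ⟨_, _, Nat.div_add_mod (κ + 2 * m - 1) m, Nat.mod_lt _ (by omega)⟩
  have ha2 : 2 * m + 1 ≤ a := by
    by_contra hlt
    have := Nat.mul_le_mul_left m (show a ≤ 2 * m by omega)
    have e1 : m * (2 * m) = 2 * m * m := by ring
    omega
  have hsplit : (m - 1) * a + a = m * a := by
    obtain ⟨m', rfl⟩ : ∃ m', m = m' + 1 := ⟨m - 1, by omega⟩
    simp only [Nat.add_sub_cancel]; ring
  have ha1 : (m - 1) * a + 2 ≤ κ := by omega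
  have haκ : a < κ := by
    have := Nat.le_mul_of_pos_left a (show 0 < m - 1 by omega)
    omega
  obtain ⟨P, hP, hPc⟩ := exists_subset_card_eq (s := F a) (n := p) (by rw [(hF a haκ).2]; omega)
  set C := (range a).biUnion F with hC
  have hdisF : ∀ i < κ, ∀ j < κ, i ≠ j → Disjoint (F i) (F j) := by
    intro i hi j hj hij
    rw [disjoint_left]
    intro g h1 h2
    exact hij (((hF i hi).1 g h1).symm.trans ((hF j hj).1 g h2))
  have hCc : C.card = a * m := by
    rw [hC, card_biUnion]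
    · rw [sum_congr rfl fun i hi => (hF i ((mem_range.1 hi).trans haκ)).2, sum_const, card_range,
        smul_eq_mul]
    · intro i hi j hj hij
      exact hdisF i ((mem_range.1 (mem_coe.1 hi)).trans haκ) j
        ((mem_range.1 (mem_coe.1 hj)).trans haκ) hij
  have hClev : ∀ g ∈ C, lev g < a := by
    intro g hg
    obtain ⟨i, hi, hgi⟩ := mem_biUnion.1 hg
    rw [(hF i ((mem_range.1 hi).trans haκ)).1 g hgi]; exact mem_range.1 hi
  have hPlev : ∀ g ∈ P, lev g = a := fun g hg => (hF a haκ).1 g (hP hg)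
  have hCP : Disjoint C P := by
    rw [disjoint_left]
    intro g h1 h2
    have := hClev g h1; have := hPlev g h2; omega
  have hBc : (C ∪ P).card = κ + 2 * m - 1 := by
    rw [card_union_of_disjoint hCP, hCc, hPc, mul_comm]; exact hap
  have hBlev : ∀ g ∈ C ∪ P, lev g ≤ a := by
    intro g hg
    rcases mem_union.1 hg with h | h
    · exact (hClev g h).le
    · exact (hPlev g h).le
  have hD : ∀ v ≤ m * (a - 1), ∃ D ⊆ C, D.card = m ∧ ∑ g ∈ D, lev g = v := by
    intro v hv
    have hdm := Nat.div_add_mod v m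
    have hml := Nat.mod_lt v (show 0 < m by omega)
    set i := v / m
    set j := v % m
    have hia : i ≤ a - 1 := by
      by_contra hlt
      have := Nat.mul_le_mul_left m (show a - 1 + 1 ≤ i by omega)
      rw [mul_add] at this; omega
    obtain ⟨D1, hD1, hc1⟩ := exists_subset_card_eq (s := F i) (n := m - j)
      (by rw [(hF i (by omega)).2]; omega)
    have hl1 : ∀ g ∈ D1, lev g = i := fun g hg => (hF i (by omega)).1 g (hD1 hg)
    rcases Nat.eq_zero_or_pos j with hj | hj
    · refine ⟨D1, fun g hg => mem_biUnion.2 ⟨i, mem_range.2 (by omega), hD1 hg⟩, by omega, ?_⟩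
      rw [sum_congr rfl hl1, sum_const, hc1, smul_eq_mul, hj, Nat.sub_zero]; omega
    · have hia' : i + 1 ≤ a - 1 := by
        by_contra hlt
        have hi' : i = a - 1 := by omega
        rw [hi'] at hdm; omega
      obtain ⟨D2, hD2, hc2⟩ := exists_subset_card_eq (s := F (i + 1)) (n := j)
        (by rw [(hF (i + 1) (by omega)).2]; omega)
      have hl2 : ∀ g ∈ D2, lev g = i + 1 := fun g hg => (hF (i + 1) (by omega)).1 g (hD2 hg)
      have hdd : Disjoint D1 D2 := by
        rw [disjoint_left]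
        intro g h1 h2
        have := hl1 g h1; have := hl2 g h2; omega
      refine ⟨D1 ∪ D2, union_subset (fun g hg => mem_biUnion.2 ⟨i, mem_range.2 (by omega), hD1 hg⟩)
        (fun g hg => mem_biUnion.2 ⟨i + 1, mem_range.2 (by omega), hD2 hg⟩), ?_, ?_⟩
      · rw [card_union_of_disjoint hdd, hc1, hc2]; omega
      · rw [sum_union hdd, sum_congr rfl hl1, sum_congr rfl hl2, sum_const, sum_const, hc1, hc2,
          smul_eq_mul, smul_eq_mul]
        obtain ⟨w, hw⟩ : ∃ w, m = j + w := ⟨m - j, by omega⟩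
        rw [← hdm, hw, Nat.add_sub_cancel_left]; ring
  -- the value
  set β := ∑ g ∈ C ∪ P, lev g with hβ
  obtain ⟨D, hDC, hDc, hDv⟩ : ∃ D ⊆ C, D.card = m ∧ ∀ r ≤ (m - 1) * a, ∀ s,
      β = s + r + ∑ g ∈ D, lev g → ¬ κ ∣ s := by
    have hdm := Nat.div_add_mod (β + 1) κ
    have hml := Nat.mod_lt (β + 1) hκ0
    set k := (β + 1) / κ
    set v := (β + 1) % κ
    have hma : m * (a - 1) + m = m * a := by
      obtain ⟨a', rfl⟩ : ∃ a', a = a' + 1 := ⟨a - 1, by omega⟩
      simp only [Nat.add_sub_cancel]; ring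
    by_cases hv : v ≤ m * (a - 1)
    · obtain ⟨D, h1, h2, h3⟩ := hD v hv
      refine ⟨D, h1, h2, fun r hr s hs hdv => ?_⟩
      obtain ⟨u, rfl⟩ := hdv
      rw [h3] at hs
      have h5 : κ ∣ r + 1 := by
        have : κ * k = κ * u + (r + 1) := by omega
        exact (Nat.dvd_add_right (dvd_mul_right κ u)).1 (this ▸ dvd_mul_right κ k)
      have := Nat.le_of_dvd (by omega) h5
      omega
    · obtain ⟨D, h1, h2, h3⟩ := hD 0 (Nat.zero_le _)
      refine ⟨D, h1, h2, fun r hr s hs hdv => ?_⟩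
      obtain ⟨u, rfl⟩ := hdv
      rw [h3] at hs
      have h4 : r + 1 < v := by omega
      have h5 : κ ∣ v - 1 - r := by
        have : κ * u = κ * k + (v - 1 - r) := by omega
        exact (Nat.dvd_add_right (dvd_mul_right κ k)).1 (this ▸ dvd_mul_right κ u)
      have := Nat.le_of_dvd (by omega) h5
      omega
  have hDB : D ⊆ C ∪ P := hDC.trans subset_union_left
  have hAc : ((C ∪ P) \ D).card = κ + (m - 1) := by
    rw [card_sdiff_of_subset hDB, hBc, hDc]; omega
  refine ⟨(C ∪ P) \ D, ?_, hAc⟩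
  intro S hS hSc h0
  have hval : ψ (∑ x ∈ S, x) = (ψ e) ^ (∑ g ∈ S, lev g) := by
    rw [char_sum, prod_congr rfl fun g _ => hlev2 g, prod_pow_eq_pow_sum]
  rw [h0, AddChar.map_zero_eq_one] at hval
  have hdvd : κ ∣ ∑ g ∈ S, lev g := by
    have := orderOf_dvd_of_pow_eq_one hval.symm
    rwa [he] at this
  refine hDv (∑ g ∈ ((C ∪ P) \ D) \ S, lev g) ?_ _ ?_ hdvd
  · have h1 : (((C ∪ P) \ D) \ S).card = m - 1 := by
      rw [card_sdiff_of_subset hS, hAc, hSc]; omega
    rw [← h1, ← smul_eq_mul]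
    exact sum_le_card_nsmul _ _ _ fun g hg => hBlev g (mem_sdiff.1 (mem_sdiff.1 hg).1).1
  · rw [add_comm (∑ g ∈ S, lev g), sum_sdiff hS, sum_sdiff hDB]

end Pool.Agent.Helper99.Harb
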