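import Mathlib
import Pool.Agent.Helper99.Harb.Lower

namespace Pool.Agent.Helper99.Harb

open Finset H25.Harb

/-- Sets in `a + 1` consecutive cosets of a subgroup of index `q`. -/
theorem lower3 (G : Type) [AddCommGroup G] [Fintype G] [DecidableEq G] (m κ q k a t : ℕ)
    (hG : Fintype.card G = m * κ) (hκ : AddMonoid.exponent G = κ) (hq : κ = q * k) (hk : 0 < k)
    (ha : 1 ≤ a) (h1 : t * a + 2 ≤ q) (h2 : q ≤ (t + 1) * a + 1)
    (h3 : κ + 2 * t + 1 ≤ (a + 1) * (m * k)) (h4 : (a + 1) * (t + 1) ≤ κ + 2 * t + 1)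
    (h5 : t + 1 ≤ m * k) (h6 : a < q) :
    ∃ A : Finset G, WeakFree A κ ∧ A.card = κ + t := by
  classical
  have hq0 : 0 < q := by omega
  obtain ⟨ψ, e, he, hH, hcov⟩ := quot G q hq0 (by rw [hκ, hq]; exact dvd_mul_right _ _)
  have hHm : m * k ≤ (univ.filter fun g => ψ g = 1).card := by
    rw [hG, hq, show m * (q * k) = q * (m * k) by ring] at hH
    exact Nat.le_of_mul_le_mul_left hH hq0
  choose lev hlev1 hlev2 using hcov
  have hlev3 : ∀ g i, i < q → ψ g = ψ e ^ i → lev g = i := by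
    intro g i hi h
    have := hlev2 g
    rw [h] at this
    exact (pow_injOn_Iio_orderOf (Set.mem_Iio.2 (by rw [he]; exact hi))
      (Set.mem_Iio.2 (by rw [he]; exact hlev1 g)) this).symm
  have hfib : ∀ i < q, m * k ≤ (univ.filter fun g => lev g = i).card := by
    intro i hi
    refine hHm.trans (card_le_card_of_injOn (fun g => g + i • e) ?_ (add_left_injective _).injOn)
    intro g hg
    have hg' : ψ g = 1 := (mem_filter.1 (mem_coe.1 hg)).2
    refine mem_coe.2 (mem_filter.2 ⟨mem_univ _, hlev3 _ i hi ?_⟩)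
    rw [AddChar.map_add_eq_mul, hg', one_mul, AddChar.map_nsmul_eq_pow]
  have hF : ∀ i, ∃ F : Finset G, i < q → (∀ g ∈ F, lev g = i) ∧ F.card = t + 1 := by
    intro i
    by_cases hi : i < q
    · obtain ⟨F, hF, hc⟩ := exists_subset_card_eq (h5.trans (hfib i hi))
      exact ⟨F, fun _ => ⟨fun g hg => (mem_filter.1 (hF hg)).2, hc⟩⟩
    · exact ⟨∅, fun h => absurd h hi⟩
  choose F hF using hF
  set C := (range (a + 1)).biUnion F with hC
  set E := univ.filter (fun g => lev g < a + 1) with hE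
  have hCc : C.card = (a + 1) * (t + 1) := by
    rw [hC, card_biUnion]
    · rw [sum_congr rfl fun i hi => (hF i (by have := mem_range.1 hi; omega)).2, sum_const,
        card_range, smul_eq_mul]
    · intro i hi j hj hij
      have hi' := mem_range.1 (mem_coe.1 hi)
      have hj' := mem_range.1 (mem_coe.1 hj)
      simp only [Function.onFun]
      rw [disjoint_left]
      intro g g1 g2
      exact hij (((hF i (by omega)).1 g g1).symm.trans ((hF j (by omega)).1 g g2))
  have hClev : ∀ g ∈ C, lev g < a + 1 := by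
    intro g hg
    obtain ⟨i, hi, hgi⟩ := mem_biUnion.1 hg
    rw [(hF i (by have := mem_range.1 hi; omega)).1 g hgi]; exact mem_range.1 hi
  have hCE : C ⊆ E := fun g hg => mem_filter.2 ⟨mem_univ _, hClev g hg⟩
  have hEc : (a + 1) * (m * k) ≤ E.card := by
    have e1 : E.card = ∑ i ∈ range (a + 1), (E.filter fun g => lev g = i).card :=
      card_eq_sum_card_fiberwise fun g hg => mem_coe.2 (mem_range.2 (mem_filter.1 (mem_coe.1 hg)).2)
    have e2 : ∀ i ∈ range (a + 1), m * k ≤ (E.filter fun g => lev g = i).card := by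
      intro i hi
      have hi' := mem_range.1 hi
      refine (hfib i (by omega)).trans (card_le_card fun g hg => ?_)
      have := (mem_filter.1 hg).2
      exact mem_filter.2 ⟨mem_filter.2 ⟨mem_univ _, by omega⟩, this⟩
    rw [e1]
    calc (a + 1) * (m * k) = ∑ i ∈ range (a + 1), m * k := by rw [sum_const, card_range, smul_eq_mul]
      _ ≤ _ := sum_le_sum e2
  obtain ⟨B, hCB, hBE, hBc⟩ := exists_subsuperset_card_eq hCE (n := κ + 2 * t + 1)
    (by rw [hCc]; exact h4) (h3.trans hEc)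
  have hBlev : ∀ g ∈ B, lev g ≤ a := by
    intro g hg
    have := (mem_filter.1 (hBE hg)).2
    omega
  have hD : ∀ v ≤ (t + 1) * a, ∃ D ⊆ C, D.card = t + 1 ∧ ∑ g ∈ D, lev g = v := by
    intro v hv
    have hdm := Nat.div_add_mod v (t + 1)
    have hml := Nat.mod_lt v (show 0 < t + 1 by omega)
    set i := v / (t + 1)
    set j := v % (t + 1)
    have hia : i ≤ a := by
      by_contra hlt
      have := Nat.mul_le_mul_left (t + 1) (show a + 1 ≤ i by omega)
      rw [mul_add] at this; omega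
    obtain ⟨D1, hD1, hc1⟩ := exists_subset_card_eq (s := F i) (n := t + 1 - j)
      (by rw [(hF i (by omega)).2]; omega)
    have hl1 : ∀ g ∈ D1, lev g = i := fun g hg => (hF i (by omega)).1 g (hD1 hg)
    rcases Nat.eq_zero_or_pos j with hj | hj
    · refine ⟨D1, fun g hg => mem_biUnion.2 ⟨i, mem_range.2 (by omega), hD1 hg⟩, by omega, ?_⟩
      rw [sum_congr rfl hl1, sum_const, hc1, smul_eq_mul, hj, Nat.sub_zero]; omega
    · have hia' : i + 1 ≤ a := by
        by_contra hlt
        have hi' : i = a := by omega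
        rw [hi'] at hdm; omega
      obtain ⟨D2, hD2, hc2⟩ := exists_subset_card_eq (s := F (i + 1)) (n := j)
        (by rw [(hF (i + 1) (by omega)).2]; omega)
      have hl2 : ∀ g ∈ D2, lev g = i + 1 := fun g hg => (hF (i + 1) (by omega)).1 g (hD2 hg)
      have hdd : Disjoint D1 D2 := by
        rw [disjoint_left]
        intro g h1 h2
        have := hl1 g h1; have := hl2 g h2; omega
      refine ⟨D1 ∪ D2, union_subset (fun g hg => mem_biUnion.2 ⟨i, mem_range.2 (by omega), hD1 hg⟩)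
        (fun g hg => mem_biUnion.2 ⟨i + 1, mem_range.2 (by omega), hD2 hg⟩), ?_, ?_⟩
      · rw [card_union_of_disjoint hdd, hc1, hc2]; omega
      · rw [sum_union hdd, sum_congr rfl hl1, sum_congr rfl hl2, sum_const, sum_const, hc1, hc2,
          smul_eq_mul, smul_eq_mul]
        obtain ⟨w, hw⟩ : ∃ w, t + 1 = j + w := ⟨t + 1 - j, by omega⟩
        rw [← hdm, hw, Nat.add_sub_cancel_left]; ring
  -- the value
  set β := ∑ g ∈ B, lev g with hβ
  obtain ⟨D, hDC, hDc, hDv⟩ : ∃ D ⊆ C, D.card = t + 1 ∧ ∀ r ≤ t * a, ∀ s,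
      β = s + r + ∑ g ∈ D, lev g → ¬ q ∣ s := by
    have hdm := Nat.div_add_mod (β + 1) q
    have hml := Nat.mod_lt (β + 1) hq0
    set k' := (β + 1) / q
    set v := (β + 1) % q
    obtain ⟨D, g1, g2, g3⟩ := hD v (by omega)
    refine ⟨D, g1, g2, fun r hr s hs hdv => ?_⟩
    obtain ⟨u, rfl⟩ := hdv
    rw [g3] at hs
    have g5 : q ∣ r + 1 := by
      have : q * k' = q * u + (r + 1) := by omega
      exact (Nat.dvd_add_right (dvd_mul_right q u)).1 (this ▸ dvd_mul_right q k')
    have := Nat.le_of_dvd (by omega) g5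
    omega
  have hDB : D ⊆ B := hDC.trans hCB
  have hAc : (B \ D).card = κ + t := by
    rw [card_sdiff_of_subset hDB, hBc, hDc]; omega
  refine ⟨B \ D, ?_, hAc⟩
  intro S hS hSc h0
  have hval : ψ (∑ x ∈ S, x) = (ψ e) ^ (∑ g ∈ S, lev g) := by
    rw [char_sum, prod_congr rfl fun g _ => hlev2 g, prod_pow_eq_pow_sum]
  rw [h0, AddChar.map_zero_eq_one] at hval
  have hdvd : q ∣ ∑ g ∈ S, lev g := by
    have := orderOf_dvd_of_pow_eq_one hval.symm
    rwa [he] at this
  refine hDv (∑ g ∈ (B \ D) \ S, lev g) ?_ _ ?_ hdvd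
  · have g1 : ((B \ D) \ S).card = t := by
      rw [card_sdiff_of_subset hS, hAc, hSc]; omega
    rw [← g1, ← smul_eq_mul]
    exact sum_le_card_nsmul _ _ _ fun g hg => hBlev g (mem_sdiff.1 (mem_sdiff.1 hg).1).1
  · rw [add_comm (∑ g ∈ S, lev g), sum_sdiff hS, sum_sdiff hDB]

end Pool.Agent.Helper99.Harb
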