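import Mathlib
import Pool.Graph.R_pool_sql_team_ae5b0c61.H25.HarbDefs
import Pool.Graph.R_pool_sql_team_ae5b0c61.H25.Harb1

namespace Pool.Agent.Helper99.Harb

open Finset Pointwise Pool.Agent.H2.Kneser H25.Harb

variable {G : Type} [AddCommGroup G] [DecidableEq G]

theorem tors_card [Fintype G] (c : ℕ) (hc : (univ.filter fun x : G => x + x = 0).card ≤ c) (a : G) :
    (univ.filter fun b : G => b + b = a + a).card ≤ c := by
  refine (card_le_card_of_injOn (fun b => b - a) ?_ sub_left_injective.injOn).trans hc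
  intro b hb
  have hb' : b + b = a + a := (mem_filter.1 (mem_coe.1 hb)).2
  refine mem_coe.2 (mem_filter.2 ⟨mem_univ _, ?_⟩)
  rw [show b - a + (b - a) = b + b - (a + a) by abel, hb', sub_self]

/-- In a group with at most `c` elements of order at most two, sums of elements which are the middle
of many progressions in `A` are sums of distinct elements. -/
theorem fix2 [Fintype G] (c : ℕ) (hc : (univ.filter fun x : G => x + x = 0).card ≤ c)
    (A : Finset G) (M n : ℕ) (hn : n ≤ M) :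
    ∀ x ∈ n • (A.filter fun a => 2 * M + c < (rep A a).card),
      ∃ R ⊆ A, R.card = n ∧ ∑ y ∈ R, y = x := by
  induction n with
  | zero => intro x hx; exact ⟨∅, by simp, by simp, by simpa using (mem_zero.1 (by simpa using hx)).symm⟩
  | succ n ih =>
    intro x hx
    rw [succ_nsmul] at hx
    obtain ⟨y, hy, a, ha, rfl⟩ := mem_add.1 hx
    obtain ⟨R, hR, hc', hs⟩ := ih (by omega) y hy
    obtain ⟨ha1, ha2⟩ := mem_filter.1 ha
    by_cases haR : a ∈ R
    · obtain ⟨b, hb, hb2⟩ := exists_mem_notMem_of_card_lt_card (t := rep A a)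
        (s := (R ∪ R.image fun r => a + a - r) ∪ univ.filter fun b : G => b + b = a + a) (by
          have h0 := card_union_le (R ∪ R.image fun r => a + a - r)
            (univ.filter fun b : G => b + b = a + a)
          have h1 := card_union_le R (R.image fun r => a + a - r)
          have h3 := card_image_le (s := R) (f := fun r => a + a - r)
          have h4 := tors_card c hc a
          omega)
      obtain ⟨b1, b2, b3⟩ := mem_filter.1 hb
      rw [mem_union, mem_union, not_or, not_or] at hb2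
      obtain ⟨⟨hb3, hb4⟩, hb5⟩ := hb2
      have c1 : a + a - b ∉ R := fun h => hb4 (mem_image.2 ⟨_, h, by abel⟩)
      have c2 : b ≠ a + a - b := fun h =>
        hb5 (mem_filter.2 ⟨mem_univ _, eq_sub_iff_add_eq.1 h⟩)
      have c3 : a + a - b ∉ R.erase a := fun h => c1 (mem_of_mem_erase h)
      have c4 : b ∉ insert (a + a - b) (R.erase a) := by
        rw [mem_insert, not_or]; exact ⟨c2, fun h => hb3 (mem_of_mem_erase h)⟩
      have hp := card_pos.2 ⟨a, haR⟩
      refine ⟨insert b (insert (a + a - b) (R.erase a)),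
        insert_subset b1 (insert_subset b2 ((erase_subset _ _).trans hR)), ?_, ?_⟩
      · rw [card_insert_of_notMem c4, card_insert_of_notMem c3, card_erase_of_mem haR]; omega
      · rw [sum_insert c4, sum_insert c3, ← hs, ← add_sum_erase R _ haR]; abel
    · exact ⟨insert a R, insert_subset ha1 hR, by rw [card_insert_of_notMem haR, hc'],
        by rw [sum_insert haR, hs, add_comm]⟩

/-- sums of good elements, avoiding a small set -/
theorem fixT [Fintype G] (c : ℕ) (hc : (univ.filter fun x : G => x + x = 0).card ≤ c)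
    (A T J : Finset G) (M n : ℕ) (hn : n ≤ M)
    (hJ : ∀ a ∈ J, a ∈ A ∧ a ∉ T ∧ 2 * (M + T.card) + c < (rep A a).card)
    (x : G) (hx : x ∈ n • J) :
    ∃ R ⊆ A \ T, R.card = n ∧ ∑ y ∈ R, y = x := by
  apply fix2 c hc (A \ T) M n hn x
  refine (Finset.nsmul_subset_nsmul_left ?_) hx
  intro a ha
  obtain ⟨h1, h3, h4⟩ := hJ a ha
  refine mem_filter.2 ⟨mem_sdiff.2 ⟨h1, h3⟩, ?_⟩
  have hsub : rep A a ⊆ rep (A \ T) a ∪ (T ∪ T.image fun b => a + a - b) := by
    intro b hb
    obtain ⟨b1, b2, b3⟩ := mem_filter.1 hb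
    by_cases hbT : b ∈ T
    · exact mem_union_right _ (mem_union_left _ hbT)
    by_cases hcT : a + a - b ∈ T
    · exact mem_union_right _ (mem_union_right _ (mem_image.2 ⟨_, hcT, by abel⟩))
    · exact mem_union_left _ (mem_filter.2 ⟨mem_sdiff.2 ⟨b1, hbT⟩, mem_sdiff.2 ⟨b2, hcT⟩, b3⟩)
  have c1 := card_le_card hsub
  have c2 := card_union_le (rep (A \ T) a) (T ∪ T.image fun b => a + a - b)
  have c3 := card_union_le T (T.image fun b => a + a - b)
  have c4 := card_image_le (s := T) (f := fun b => a + a - b)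
  omega

/-- There are at most `2 |G| / exp G` elements of order at most two. -/
theorem tors2 (G : Type) [AddCommGroup G] [Fintype G] [DecidableEq G] (m κ : ℕ)
    (hG : Fintype.card G = m * κ) (hκ : AddMonoid.exponent G = κ) (h0 : 0 < κ) :
    (univ.filter fun x : G => x + x = 0).card ≤ 2 * m := by
  classical
  obtain ⟨g, hg⟩ := AddMonoid.exists_addOrderOf_eq_exponent
    (AddMonoid.ExponentExists.of_finite (G := G))
  set C := AddSubgroup.zmultiples g with hC
  have hCc : Nat.card C = κ := by rw [hC, Nat.card_zmultiples, hg, hκ]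
  have hidx : Nat.card (G ⧸ C) = m := by
    have h1 := C.card_mul_index
    rw [hCc, Nat.card_eq_fintype_card, hG, mul_comm m] at h1
    rw [← AddSubgroup.index_eq_card]
    exact Nat.eq_of_mul_eq_mul_left h0 h1
  have key : (univ.filter fun x : G => x + x = 0).card ≤
      2 * ((univ.filter fun x : G => x + x = 0).image (QuotientAddGroup.mk (s := C))).card := by
    apply card_le_mul_card_image
    intro y hy
    obtain ⟨x0, hx0, rfl⟩ := mem_image.1 hy
    have hx0' : x0 + x0 = 0 := (mem_filter.1 hx0).2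
    have hcyc : (univ.filter fun c : C => 2 • c = 0).card ≤ 2 :=
      IsAddCyclic.card_nsmul_eq_zero_le (by norm_num)
    refine le_trans ?_ hcyc
    refine card_le_card_of_injOn (fun x => if h : x - x0 ∈ C then (⟨x - x0, h⟩ : C) else 0) ?_ ?_
    · intro x hx
      obtain ⟨h1, h2⟩ := mem_filter.1 (mem_coe.1 hx)
      have h1' : x + x = 0 := (mem_filter.1 h1).2
      have h3 : x - x0 ∈ C := QuotientAddGroup.eq_iff_sub_mem.1 h2
      refine mem_coe.2 (mem_filter.2 ⟨mem_univ _, ?_⟩)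
      simp only [h3, dite_true]
      apply Subtype.ext
      show 2 • (x - x0) = 0
      rw [two_nsmul, show x - x0 + (x - x0) = x + x - (x0 + x0) by abel, h1', hx0', sub_self]
    · intro x hx y hy hxy
      have h3 : x - x0 ∈ C := QuotientAddGroup.eq_iff_sub_mem.1 (mem_filter.1 (mem_coe.1 hx)).2
      have h4 : y - x0 ∈ C := QuotientAddGroup.eq_iff_sub_mem.1 (mem_filter.1 (mem_coe.1 hy)).2
      simp only [h3, h4, dite_true] at hxy
      exact sub_left_injective (congrArg Subtype.val hxy)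
  refine key.trans (Nat.mul_le_mul_left _ ?_)
  rw [← hidx, Nat.card_eq_fintype_card]
  exact card_le_univ _

theorem nsmul_coset {K J : Finset G} (sK : Sg K) {x : G} (hJK : ∀ a ∈ J, a - x ∈ K) (n : ℕ) :
    ∀ z ∈ n • J, z - n • x ∈ K := by
  induction n with
  | zero => intro z hz; simpa using (by simpa using hz : z = 0) ▸ sK.zero
  | succ n ih =>
    intro z hz
    rw [succ_nsmul] at hz
    obtain ⟨y, hy, a, ha, rfl⟩ := mem_add.1 hz
    have := sK.add (ih y hy) (hJK a ha)
    rwa [show y - n • x + (a - x) = y + a - (n + 1) • x by rw [add_nsmul, one_nsmul]; abel] at this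

/-- two cosets -/
theorem nsmul_two {K J : Finset G} (sK : Sg K) {x e : G}
    (hJK : ∀ a ∈ J, a - x ∈ K ∨ a - x - e ∈ K) (n : ℕ) :
    ∀ z ∈ n • J, ∃ i ≤ n, z - n • x - i • e ∈ K := by
  induction n with
  | zero => intro z hz; exact ⟨0, le_rfl, by simpa using (by simpa using hz : z = 0) ▸ sK.zero⟩
  | succ n ih =>
    intro z hz
    rw [succ_nsmul] at hz
    obtain ⟨y, hy, a, ha, rfl⟩ := mem_add.1 hz
    obtain ⟨i, hi, h⟩ := ih y hy
    rcases hJK a ha with h' | h'
    · refine ⟨i, by omega, ?_⟩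
      have := sK.add h h'
      rwa [show y - n • x - i • e + (a - x) = y + a - (n + 1) • x - i • e by
        rw [add_nsmul, one_nsmul]; abel] at this
    · refine ⟨i + 1, by omega, ?_⟩
      have := sK.add h h'
      rwa [show y - n • x - i • e + (a - x - e) = y + a - (n + 1) • x - (i + 1) • e by
        simp only [add_nsmul, one_nsmul]; abel] at this

theorem num3 {m t c d : ℕ} (hm : 3 ≤ m) (ht : 3 * m ≤ 2 * t + 1) (hc : 3 ≤ c)
    (h1 : t * c + 1 ≤ d + (t - 1)) (h2 : (3 * m ^ 2 + 1) * d ≤ (3 * m ^ 2 + m + 1) * (c * m)) :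
    False := by
  obtain ⟨e, rfl⟩ : ∃ e, c = 3 + e := ⟨c - 3, by omega⟩
  have h1' : t * (2 + e) + 2 ≤ d := by
    have : t * (3 + e) = t * (2 + e) + t := by ring
    omega
  obtain ⟨a, rfl⟩ : ∃ a, m = 3 + a := ⟨m - 3, by omega⟩
  have h3 : (3 * (3 + a) - 1) * (2 + e) + 4 ≤ 2 * d := by
    have : (3 * (3 + a) - 1) * (2 + e) ≤ (2 * t) * (2 + e) := Nat.mul_le_mul_right _ (by omega)
    nlinarith
  have h4 : (3 * (3 + a) ^ 2 + 1) * ((3 * (3 + a) - 1) * (2 + e) + 4) ≤
      2 * ((3 * (3 + a) ^ 2 + (3 + a) + 1) * ((3 + e) * (3 + a))) := by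
    have := Nat.mul_le_mul_left (3 * (3 + a) ^ 2 + 1) h3
    nlinarith
  have h5 : 3 * (3 + a) - 1 = 8 + 3 * a := by omega
  rw [h5] at h4
  ring_nf at h4
  nlinarith [Nat.zero_le (a * e), Nat.zero_le (a ^ 2 * e), Nat.zero_le (a ^ 3 * e)]

theorem num2 {m d : ℕ} (h2 : (3 * m ^ 2 + 1) * d ≤ (3 * m ^ 2 + m + 1) * (2 * m)) :
    d ≤ 2 * m := by
  by_contra h
  have := Nat.mul_le_mul_left (3 * m ^ 2 + 1) (show 2 * m + 1 ≤ d by omega)
  nlinarith

theorem num1 {m d : ℕ} (h2 : (3 * m ^ 2 + 1) * d ≤ (3 * m ^ 2 + m + 1) * (1 * m)) :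
    d ≤ m := by
  by_contra h
  have := Nat.mul_le_mul_left (3 * m ^ 2 + 1) (show m + 1 ≤ d by omega)
  nlinarith

theorem numN {m n N t : ℕ} (hm : 3 ≤ m) (ht : 3 * m ≤ 2 * t + 1) (hN : 2 ≤ N) (hNm : N ≤ m)
    (hn : t + 1 ≤ n + N) : 2 * m ≤ N * n := by
  obtain ⟨a, rfl⟩ : ∃ a, N = 2 + a := ⟨N - 2, by omega⟩
  obtain ⟨b, rfl⟩ : ∃ b, m = 2 + a + b := ⟨m - (2 + a), by omega⟩
  have h : 3 + a + 3 * b ≤ 2 * n := by omega
  have h3 := Nat.mul_le_mul_left (2 + a) h
  rcases Nat.eq_zero_or_pos a with rfl | ha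
  · nlinarith
  · have : a ≤ a * a := Nat.le_mul_of_pos_left _ ha
    nlinarith [Nat.zero_le (a * b)]

theorem num4 {m n N c d : ℕ} (hm : 3 ≤ m) (hN : 2 ≤ N) (hc : 2 ≤ c) (h0 : 2 * m ≤ N * n)
    (h1 : n * c + 1 ≤ d + (n - 1)) (hn : 1 ≤ n)
    (h2 : (3 * m ^ 2 + 1) * (N * d) ≤ (3 * m ^ 2 + m + 1) * (c * m)) : False := by
  obtain ⟨e, rfl⟩ : ∃ e, c = 2 + e := ⟨c - 2, by omega⟩
  have h1' : n * (1 + e) + 2 ≤ d := by
    have : n * (2 + e) = n * (1 + e) + n := by ring
    omega
  have h3 : 2 * m * (1 + e) + 4 ≤ N * d := by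
    have a1 := Nat.mul_le_mul_left N h1'
    have a2 := Nat.mul_le_mul_right (1 + e) h0
    nlinarith
  have h4 := (Nat.mul_le_mul_left (3 * m ^ 2 + 1) h3).trans h2
  obtain ⟨a, rfl⟩ : ∃ a, m = 3 + a := ⟨m - 3, by omega⟩
  ring_nf at h4
  nlinarith [Nat.zero_le (a * e), Nat.zero_le (a ^ 2 * e), Nat.zero_le (a ^ 3 * e)]

end Pool.Agent.Helper99.Harb
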