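import Mathlib
import Pool.Agent.Helper99.Harb.Tools

namespace Pool.Agent.Helper99.Harb

open Finset Pointwise Pool.Agent.H2.Kneser H25.Harb

variable {G : Type} [AddCommGroup G] [DecidableEq G] [Fintype G]

/-- the subgroup -/
def toSub {K : Finset G} (sg : Sg K) : AddSubgroup G :=
  ⟨⟨⟨K, fun ha hb => sg.add ha hb⟩, sg.zero⟩, fun ha => sg.neg ha⟩

theorem index_toSub {K : Finset G} (sg : Sg K) {d : ℕ} (h : Fintype.card G = d * K.card) :
    (toSub sg).index = d := by
  have h1 := (toSub sg).card_mul_index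
  have h2 : Nat.card (toSub sg) = K.card := Nat.subtype_card K (fun _ => Iff.rfl)
  rw [h2, Nat.card_eq_fintype_card, h, mul_comm d] at h1
  exact Nat.eq_of_mul_eq_mul_left sg.pos h1

theorem two (t κ d : ℕ) (hκ : ∀ x : G, κ • x = 0) (J : Finset G) (hne : J.Nonempty)
    (hd : Fintype.card G = d * (st (t • J)).card)
    (hc : (J + st (t • J)).card = 2 * (st (t • J)).card) (h2d : d < 2 * (t + 2)) :
    d ∣ κ ∧ t + 2 ≤ d := by
  set K := st (t • J) with hK
  have sg : Sg K := sg_st _
  have hp := sg.pos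
  obtain ⟨x, hx⟩ := hne
  have hxK : x +ᵥ K ⊆ J + K := vadd_finset_subset_add hx
  obtain ⟨w, hw, hwx⟩ : ∃ w ∈ J + K, w ∉ x +ᵥ K := by
    by_contra hcon
    push Not at hcon
    have := card_le_card (show J + K ⊆ x +ᵥ K from hcon)
    rw [hc, card_vadd_finset] at this
    omega
  obtain ⟨y, hy, k, hk, rfl⟩ := mem_add.1 hw
  have hyx : y - x ∉ K := fun h => hwx (sg.mem_coset.2 (by
    have := sg.add h hk; rwa [show y - x + k = y + k - x by abel] at this))
  have hdisj : Disjoint (x +ᵥ K) (y +ᵥ K) := by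
    rw [disjoint_left]
    intro z h1 h2
    rw [sg.mem_coset] at h1 h2
    exact hyx (by have := sg.sub _ h1 _ h2; rwa [show z - x - (z - y) = y - x by abel] at this)
  have hcov : (x +ᵥ K) ∪ (y +ᵥ K) = J + K := by
    apply eq_of_subset_of_card_le (union_subset hxK (vadd_finset_subset_add hy))
    rw [hc, card_union_of_disjoint hdisj, card_vadd_finset, card_vadd_finset]; omega
  have hJK : ∀ a ∈ J, a - x ∈ K ∨ a - x - (y - x) ∈ K := by
    intro a ha
    have := hcov ▸ sg.subset_add J ha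
    rcases mem_union.1 this with h | h
    · exact Or.inl (sg.mem_coset.1 h)
    · exact Or.inr (by rw [show a - x - (y - x) = a - y by abel]; exact sg.mem_coset.1 h)
  have hord : ∀ r, 0 < r → r ≤ t + 1 → r • (y - x) ∉ K := by
    intro r hr0 hr hrK
    apply hyx
    rw [hK, mem_st]
    intro z hz
    obtain ⟨i, hi, h⟩ := nsmul_two sg hJK t z hz
    have key : ∀ i ≤ t, ∀ w, w - t • x - i • (y - x) ∈ K → w ∈ t • J := by
      intro i hi w hw
      have h1 : (t - i) • x + i • y ∈ t • J := by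
        have : t • J = (t - i) • J + i • J := by rw [← add_nsmul]; congr 1; omega
        rw [this]
        exact add_mem_add (nsmul_mem_nsmul hx) (nsmul_mem_nsmul hy)
      have h2 := per_st (t • J) _ h1 _ hw
      have : (t - i) • x + i • y + (w - t • x - i • (y - x)) = w := by
        obtain ⟨j, rfl⟩ := Nat.exists_eq_add_of_le hi
        rw [Nat.add_sub_cancel_left, smul_sub, add_nsmul]; abel
      rwa [this] at h2
    by_cases hit : i < t
    · apply key (i + 1) (by omega)
      rwa [show z + (y - x) - t • x - (i + 1) • (y - x) = z - t • x - i • (y - x) by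
        simp only [add_nsmul, one_nsmul]; abel]
    · obtain ⟨j, hj⟩ := Nat.exists_eq_add_of_le hr
      have hit' : i = t := by omega
      rw [hit'] at h
      apply key j (by omega)
      have e1 : t • (y - x) + (y - x) = r • (y - x) + j • (y - x) := by
        rw [← succ_nsmul, hj, add_nsmul]
      have := sg.add h hrK
      have e2 : r • (y - x) = t • (y - x) + (y - x) - j • (y - x) := eq_sub_of_add_eq e1.symm
      rw [e2] at this
      rwa [show z - t • x - t • (y - x) + (t • (y - x) + (y - x) - j • (y - x)) =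
        z + (y - x) - t • x - j • (y - x) by abel] at this
  set r := addOrderOf (QuotientAddGroup.mk (y - x) : G ⧸ toSub sg) with hr
  have hrK : r • (y - x) ∈ K := by
    have : ((r • (y - x) : G) : G ⧸ toSub sg) = 0 := by
      rw [QuotientAddGroup.mk_nsmul]; exact addOrderOf_nsmul_eq_zero _
    exact (QuotientAddGroup.eq_zero_iff _).1 this
  have hr0 : 0 < r := addOrderOf_pos _
  have hrκ : r ∣ κ := by
    apply addOrderOf_dvd_of_nsmul_eq_zero
    rw [← QuotientAddGroup.mk_nsmul, hκ]; rfl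
  have hrd : r ∣ d := by
    have := addOrderOf_dvd_natCard (QuotientAddGroup.mk (y - x) : G ⧸ toSub sg)
    rwa [← AddSubgroup.index_eq_card, index_toSub sg hd] at this
  have hrt : t + 2 ≤ r := by
    by_contra hlt
    exact hord r hr0 (by omega) hrK
  have hd0 : 0 < d := by
    rcases Nat.eq_zero_or_pos d with h | h
    · rw [h, zero_mul] at hd; exact absurd hd Fintype.card_ne_zero
    · exact h
  obtain ⟨u, hu⟩ := hrd
  have hu1 : u = 1 := by
    rcases u with _ | _ | u
    · omega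
    · rfl
    · have : r * (u + 1 + 1) = r * u + 2 * r := by ring
      omega
  rw [hu1, mul_one] at hu
  rw [hu]
  exact ⟨hrκ, hrt⟩

theorem fill (m κ N t h : ℕ) (hm : 3 ≤ m) (ht : 3 * m ≤ 2 * t + 1) (hN : 2 ≤ N) (hNm : N ≤ m)
    (hn : t + 1 ≤ (h + 1) + N) (K J : Finset G) (sK : Sg K) (x : G) (hJne : J.Nonempty)
    (hJK : ∀ a ∈ J, a - x ∈ K) (hfull : K.card ≤ (t • J).card) (hcard : N * K.card = m * κ)
    (hκ0 : 0 < κ) (hdens : (3 * m ^ 2 + 1) * κ ≤ (3 * m ^ 2 + m + 1) * J.card) :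
    ∀ z, z - (h + 1) • x ∈ K → z ∈ (h + 1) • J := by
  by_contra hcon
  push Not at hcon
  obtain ⟨z0, hz0, hz0'⟩ := hcon
  have kn := kneser_nsmul hJne h
  set S := st ((h + 1) • J) with hS
  have sS : Sg S := sg_st _
  have hnJ := nsmul_coset sK hJK (h + 1)
  have hne : ((h + 1) • J).Nonempty := hJne.nsmul
  have hSK : S ⊆ K := by
    intro s hs
    obtain ⟨z, hz⟩ := hne
    have h1 := hnJ z hz
    have h2 := hnJ (z + s) (mem_st.1 hs z hz)
    have := sK.sub _ h2 _ h1
    rwa [show z + s - (h + 1) • x - (z - (h + 1) • x) = s by abel] at this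
  have pK : Per S K := fun x hx k hk => sK.add hx (hSK hk)
  obtain ⟨d, hd⟩ := Per.card_dvd sS pK
  obtain ⟨c, hc⟩ := (sS.per_add J).card_dvd sS
  obtain ⟨c2, hc2⟩ := (per_st ((h + 1) • J)).card_dvd sS
  have hlt : ((h + 1) • J).card < K.card := by
    refine lt_of_le_of_lt (card_le_card_of_injOn (t := K.erase (z0 - (h + 1) • x))
      (fun z => z - (h + 1) • x) ?_ sub_left_injective.injOn) (card_erase_lt_of_mem hz0)
    intro z hz
    refine mem_coe.2 (mem_erase.2 ⟨fun e => hz0' ?_, hnJ z (mem_coe.1 hz)⟩)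
    have : z = z0 := sub_left_injective e
    exact this ▸ mem_coe.1 hz
  have hp := sS.pos
  have hc2d : c2 < d := by
    rw [hd, hc2] at hlt; exact Nat.lt_of_mul_lt_mul_left hlt
  have hc2p : 0 < c2 := by
    have := card_pos.2 hne
    rw [hc2] at this; exact Nat.pos_of_mul_pos_left this
  have h1 : (h + 1) * c + 1 ≤ d + (h + 1 - 1) := by
    rw [hc, hc2] at kn
    have : (h + 1) * c ≤ c2 + h := Nat.le_of_mul_le_mul_left (c := S.card) (by nlinarith) hp
    omega
  have hc1 : 2 ≤ c := by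
    by_contra hlt1
    have hcc : c ≤ 1 := by omega
    obtain ⟨x', hx'⟩ := hJne
    have he : x' +ᵥ S = J + S := eq_of_subset_of_card_le (vadd_finset_subset_add hx')
      (by rw [hc, card_vadd_finset]; nlinarith)
    have hJS : ∀ a ∈ J, a - x' ∈ S := fun a ha => sS.mem_coset.1 (he ▸ sS.subset_add J ha)
    have h3 : (t • J).card ≤ S.card := by
      apply card_le_card_of_injOn (fun z => z - t • x') _ sub_left_injective.injOn
      intro z hz
      exact mem_coe.2 (nsmul_coset sS hJS t z (mem_coe.1 hz))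
    have h4 : S.card * d ≤ S.card * 1 := by rw [← hd]; omega
    have := Nat.le_of_mul_le_mul_left h4 hp
    omega
  refine num4 hm hN hc1 (numN hm ht hN hNm hn) h1 (by omega) ?_
  have h6 : J.card ≤ S.card * c := by
    rw [← hc]; exact card_le_card (sS.subset_add J)
  have h7 : κ * ((3 * m ^ 2 + 1) * (N * d)) ≤ κ * ((3 * m ^ 2 + m + 1) * (c * m)) := by
    calc κ * ((3 * m ^ 2 + 1) * (N * d)) = ((3 * m ^ 2 + 1) * κ) * (N * d) := by ring
      _ ≤ ((3 * m ^ 2 + m + 1) * J.card) * (N * d) := Nat.mul_le_mul_right _ hdens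
      _ ≤ ((3 * m ^ 2 + m + 1) * (S.card * c)) * (N * d) :=
        Nat.mul_le_mul_right _ (Nat.mul_le_mul_left _ h6)
      _ = (3 * m ^ 2 + m + 1) * c * (N * (S.card * d)) := by ring
      _ = (3 * m ^ 2 + m + 1) * c * (m * κ) := by rw [← hd, hcard]
      _ = κ * ((3 * m ^ 2 + m + 1) * (c * m)) := by ring
  exact Nat.le_of_mul_le_mul_left h7 hκ0


theorem upper (m t : ℕ) (hm : 3 ≤ m) (ht : 3 * m ≤ 2 * t + 1) : ∃ k0 : ℕ, ∀ κ, k0 ≤ κ →
    ∀ (G : Type) [AddCommGroup G] [DecidableEq G] [Fintype G],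
    (univ.filter fun x : G => x + x = 0).card ≤ 2 * m → Fintype.card G = m * κ →
    (∀ x : G, κ • x = 0) → (∀ q, q ∣ κ → t + 2 ≤ q → q ≤ 2 * m → False) →
    ∀ A : Finset G, A.card = κ + t → ∃ R ⊆ A, R.card = t ∧ ∑ y ∈ R, y = ∑ y ∈ A, y := by
  obtain ⟨n0, hn0⟩ := badsmall (t + m + m) (3 * m ^ 2 + m + 1) (by positivity)
  refine ⟨n0 + 1, fun κ hk G _ _ _ h2 hG hκ hq A hA => ?_⟩
  have hb := hn0 G (by rw [hG]; nlinarith) A
  have hsp := card_filter_add_card_filter_not (s := A) (fun a => 2 * (t + m + m) < (rep A a).card)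
  set J := A.filter fun a => 2 * (t + m + m) < (rep A a).card with hJ
  generalize (A.filter fun a => ¬ 2 * (t + m + m) < (rep A a).card).card = b at *
  have dens : (3 * m ^ 2 + 1) * κ ≤ (3 * m ^ 2 + m + 1) * J.card := by
    rw [hG] at hb
    have : (3 * m ^ 2 + m + 1) * (J.card + b) = (3 * m ^ 2 + m + 1) * (κ + t) := by rw [hsp, hA]
    nlinarith
  have hκ0 : 0 < κ := by omega
  have hne : J.Nonempty := by
    rw [← card_pos]
    by_contra h0
    have h0' : J.card = 0 := by omega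
    rw [h0', mul_zero] at dens
    have : 0 < (3 * m ^ 2 + 1) * κ := by positivity
    omega
  by_cases hall : t • J = univ
  · obtain ⟨R, hR, r1, r2⟩ := fixT (2 * m) h2 A ∅ J (t + m) t (by omega) (by
      intro a ha
      obtain ⟨a1, a2⟩ := mem_filter.1 ha
      exact ⟨a1, notMem_empty _, by rw [card_empty]; omega⟩) (∑ y ∈ A, y) (by
        rw [hall]; exact mem_univ _)
    exact ⟨R, hR.trans sdiff_subset, r1, r2⟩
  obtain ⟨h, rfl⟩ : ∃ h, t = h + 1 := ⟨t - 1, by omega⟩
  obtain ⟨d, c, h1, h3, h4, h5⟩ := kneser_num hne h hall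
  set K := st ((h + 1) • J) with hK
  have sg : Sg K := sg_st _
  have hp := sg.pos
  have h6 : J.card ≤ c * K.card := by rw [← h3]; exact card_le_card (sg.subset_add J)
  have h7 : (3 * m ^ 2 + 1) * d ≤ (3 * m ^ 2 + m + 1) * (c * m) := by
    have : κ * ((3 * m ^ 2 + 1) * d) ≤ κ * ((3 * m ^ 2 + m + 1) * (c * m)) := by
      calc κ * ((3 * m ^ 2 + 1) * d) = ((3 * m ^ 2 + 1) * κ) * d := by ring
        _ ≤ ((3 * m ^ 2 + m + 1) * J.card) * d := Nat.mul_le_mul_right _ dens
        _ ≤ ((3 * m ^ 2 + m + 1) * (c * K.card)) * d :=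
          Nat.mul_le_mul_right _ (Nat.mul_le_mul_left _ h6)
        _ = (3 * m ^ 2 + m + 1) * c * (d * K.card) := by ring
        _ = (3 * m ^ 2 + m + 1) * c * (m * κ) := by rw [← h1, hG]
        _ = κ * ((3 * m ^ 2 + m + 1) * (c * m)) := by ring
    exact Nat.le_of_mul_le_mul_left this hκ0
  rcases (show c = 1 ∨ c = 2 ∨ 3 ≤ c by omega) with rfl | rfl | hc3
  · -- one coset
    have hdm := num1 h7
    obtain ⟨x, hx⟩ := hne
    have he : x +ᵥ K = J + K := eq_of_subset_of_card_le (vadd_finset_subset_add hx)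
      (by rw [h3, one_mul, card_vadd_finset])
    have hJK : ∀ a ∈ J, a - x ∈ K := fun a ha => sg.mem_coset.1 (he ▸ sg.subset_add J ha)
    have hJA : J ⊆ A := filter_subset _ _
    obtain ⟨Z, hZ, z1, z2⟩ := dav (toSub sg) (fun o => o - x) _ (A \ J) rfl
    rw [index_toSub sg h1] at z2
    have z1' : ∑ y ∈ Z, (y - x) ∈ K := z1
    set T := (A \ J) \ Z with hT
    have c1 := card_sdiff_of_subset hJA
    have c2 := card_sdiff_of_subset hZ
    have c3 := card_le_card hZ
    have c4 := card_le_card hJA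
    rw [← hT] at c2
    obtain ⟨h', hh'⟩ : ∃ h', h + 1 = T.card + (h' + 1) := ⟨h + 1 - T.card - 1, by omega⟩
    have hTA : T ⊆ A := sdiff_subset.trans sdiff_subset
    have hfull : K.card ≤ ((h + 1) • J).card := by
      obtain ⟨y, hy⟩ : ((h + 1) • J).Nonempty := ⟨_, nsmul_mem_nsmul hx⟩
      rw [← card_vadd_finset y K]
      apply card_le_card
      intro z hz
      have := per_st ((h + 1) • J) y hy _ (sg.mem_coset.1 hz)
      rwa [add_sub_cancel] at this
    have hw := fill m κ d (h + 1) h' hm ht (by omega) hdm (by omega) K J sg x ⟨x, hx⟩ hJK hfull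
      (by rw [← h1, hG]) hκ0 dens (∑ y ∈ A, y - ∑ y ∈ T, y) (by
        have e1 := sg.add z1' (show ∑ y ∈ J, (y - x) ∈ K from
          (toSub sg).sum_mem (t := J) fun a ha => hJK a ha)
        rw [sum_sub_distrib, sum_sub_distrib, sum_const, sum_const] at e1
        have e2 : Z.card + J.card = κ + (h' + 1) := by omega
        have e3 : Z.card • x + J.card • x = (h' + 1) • x := by
          rw [← add_nsmul, e2, add_nsmul, hκ, zero_add]
        have e4 : ∑ y ∈ A, y = ∑ y ∈ T, y + ∑ y ∈ Z, y + ∑ y ∈ J, y := by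
          rw [← sum_sdiff hJA, ← sum_sdiff hZ]
        rw [e4, ← e3]
        rwa [show ∑ y ∈ T, y + ∑ y ∈ Z, y + ∑ y ∈ J, y - ∑ y ∈ T, y - (Z.card • x + J.card • x) =
          ∑ y ∈ Z, y - Z.card • x + (∑ y ∈ J, y - J.card • x) by abel])
    obtain ⟨R, hR, r1, r2⟩ := fixT (2 * m) h2 A T J (h + 1 + m - T.card) (h' + 1) (by omega) (by
      intro a ha
      obtain ⟨a1, a2⟩ := mem_filter.1 ha
      refine ⟨a1, fun haT => (mem_sdiff.1 (mem_sdiff.1 haT).1).2 ha, ?_⟩
      rw [Nat.sub_add_cancel (by omega)]; omega) _ hw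
    have hdis : Disjoint T R := disjoint_sdiff.mono_right hR
    refine ⟨T ∪ R, union_subset hTA (hR.trans sdiff_subset), ?_, ?_⟩
    · rw [card_union_of_disjoint hdis, r1, hh']
    · rw [sum_union hdis, r2]; abel
  · -- two cosets
    have hdm := num2 h7
    obtain ⟨q1, q2⟩ := two (h + 1) κ d hκ J hne h1 h3 (by omega)
    exact (hq d q1 q2 hdm).elim
  · exact (num3 hm ht hc3 (by simpa using h5) h7).elim

end Pool.Agent.Helper99.Harb
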