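import Mathlib
import Pool.Agent.Helper99.Harb.Upper
import Pool.Agent.Helper99.Harb.Greedy

namespace Pool.Agent.Helper99.Harb

open Finset Pointwise Pool.Agent.H2.Kneser H25.Harb

variable {G : Type} [AddCommGroup G] [DecidableEq G]

theorem pair {K A B : Finset G} (sg : Sg K) {u v : G} (hA : ∀ a ∈ A, a - u ∈ K)
    (hB : ∀ b ∈ B, b - v ∈ K) (hc : K.card < A.card + B.card) (z : G) (hz : z - u - v ∈ K) :
    z ∈ A + B := by
  have h1 : ((A.image fun a => a - u) ∩ (B.image fun b => z - b - u)).Nonempty := by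
    rw [← card_pos]
    have h2 := card_union_add_card_inter (A.image fun a => a - u) (B.image fun b => z - b - u)
    rw [card_image_of_injective _ sub_left_injective, card_image_of_injective B (f := fun b => z - b - u)
      (fun b c h => by simpa using h)] at h2
    have h3 : ((A.image fun a => a - u) ∪ (B.image fun b => z - b - u)).card ≤ K.card := by
      apply card_le_card
      intro w hw
      rcases mem_union.1 hw with h | h
      · obtain ⟨a, ha, rfl⟩ := mem_image.1 h; exact hA a ha
      · obtain ⟨b, hb, rfl⟩ := mem_image.1 h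
        have := sg.sub _ hz _ (hB b hb)
        rwa [show z - u - v - (b - v) = z - b - u by abel] at this
    omega
  obtain ⟨w, hw⟩ := h1
  obtain ⟨h2, h3⟩ := mem_inter.1 hw
  obtain ⟨a, ha, rfl⟩ := mem_image.1 h2
  obtain ⟨b, hb, e⟩ := mem_image.1 h3
  refine mem_add.2 ⟨a, ha, b, hb, ?_⟩
  have : z - b = a := sub_left_injective e
  rw [← this]; abel

theorem full {K J : Finset G} (sg : Sg K) {x y : G} (hx : x ∈ J) (hy : y ∈ J)
    (hJK : ∀ a ∈ J, a - x ∈ K ∨ a - x - (y - x) ∈ K) (hbig : 3 * K.card < 2 * J.card) (n : ℕ) :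
    ∀ i ≤ n + 2, ∀ z, z - (n + 2) • x - i • (y - x) ∈ K → z ∈ (n + 2) • J := by
  classical
  induction n with
  | zero =>
    set J0 := J.filter fun a => a - x ∈ K with hJ0
    set J1 := J.filter fun a => ¬ (a - x ∈ K) with hJ1
    have h01 : J0.card + J1.card = J.card := card_filter_add_card_filter_not (s := J) (fun a => a - x ∈ K)
    have m0 : ∀ a ∈ J0, a - x ∈ K := fun a ha => (mem_filter.1 ha).2
    have m1 : ∀ a ∈ J1, a - y ∈ K := by
      intro a ha
      obtain ⟨a1, a2⟩ := mem_filter.1 ha
      rcases hJK a a1 with h | h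
      · exact absurd h a2
      · rwa [show a - x - (y - x) = a - y by abel] at h
    have c0 : J0.card ≤ K.card := card_le_card_of_injOn (fun a => a - x)
      (fun a ha => mem_coe.2 (m0 a (mem_coe.1 ha))) sub_left_injective.injOn
    have c1 : J1.card ≤ K.card := card_le_card_of_injOn (fun a => a - y)
      (fun a ha => mem_coe.2 (m1 a (mem_coe.1 ha))) sub_left_injective.injOn
    intro i hi z hz
    rw [zero_add, two_nsmul]
    rw [zero_add, two_nsmul] at hz
    rcases (show i = 0 ∨ i = 1 ∨ i = 2 by omega) with rfl | rfl | rfl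
    · exact add_subset_add (filter_subset _ _) (filter_subset _ _)
        (pair sg m0 m0 (by omega) z (by rwa [zero_nsmul, sub_zero, ← sub_sub] at hz))
    · exact add_subset_add (filter_subset _ _) (filter_subset _ _)
        (pair sg m0 m1 (by omega) z (by
          rwa [one_nsmul, show z - (x + x) - (y - x) = z - x - y by abel] at hz))
    · exact add_subset_add (filter_subset _ _) (filter_subset _ _)
        (pair sg m1 m1 (by omega) z (by
          rwa [two_nsmul, show z - (x + x) - (y - x + (y - x)) = z - y - y by abel] at hz))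
  | succ n ih =>
    intro i hi z hz
    have e0 : (n + 1 + 2) • J = (n + 2) • J + J := by
      rw [show n + 1 + 2 = (n + 2) + 1 by ring, succ_nsmul]
    rw [e0]
    have e1 : (n + 1 + 2) • x = (n + 2) • x + x := by
      rw [show n + 1 + 2 = (n + 2) + 1 by ring, succ_nsmul]
    by_cases h : i ≤ n + 2
    · have := ih i h (z - x) (by
        rw [e1] at hz
        rwa [show z - x - (n + 2) • x - i • (y - x) = z - ((n + 2) • x + x) - i • (y - x) by abel])
      exact mem_add.2 ⟨z - x, this, x, hx, by abel⟩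
    · have hi' : i = (n + 2) + 1 := by omega
      have e2 : ((n + 2) + 1) • (y - x) = (n + 2) • (y - x) + (y - x) := succ_nsmul _ _
      have := ih (n + 2) le_rfl (z - y) (by
        rw [e1, hi', e2] at hz
        rwa [show z - y - (n + 2) • x - (n + 2) • (y - x) =
          z - ((n + 2) • x + x) - ((n + 2) • (y - x) + (y - x)) by abel])
      exact mem_add.2 ⟨z - y, this, y, hy, by abel⟩

theorem twoPre [Fintype G] (t : ℕ) (J : Finset G) (hne : J.Nonempty)
    (hc : (J + st (t • J)).card = 2 * (st (t • J)).card) :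
    ∃ x ∈ J, ∃ y ∈ J, y - x ∉ st (t • J) ∧
      (∀ a ∈ J, a - x ∈ st (t • J) ∨ a - x - (y - x) ∈ st (t • J)) ∧
      (∀ r, 0 < r → r ≤ t + 1 → r • (y - x) ∉ st (t • J)) := by
  set K := st (t • J) with hK
  have sg : Sg K := sg_st _
  have hp := sg.pos
  obtain ⟨x, hx⟩ := hne
  have hxK : x +ᵥ K ⊆ J + K := vadd_finset_subset_add hx
  obtain ⟨w, hw, hwx⟩ : ∃ w ∈ J + K, w ∉ x +ᵥ K := by
    by_contra hcon
    push Not at hcon
    have := card_le_card (show J + K ⊆ x +ᵥ K from hcon)
    rw [hc, card_vadd_finset] at this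
    omega
  obtain ⟨y, hy, k, hk, rfl⟩ := mem_add.1 hw
  have hyx : y - x ∉ K := fun h => hwx (sg.mem_coset.2 (by
    have := sg.add h hk; rwa [show y - x + k = y + k - x by abel] at this))
  have hdisj : Disjoint (x +ᵥ K) (y +ᵥ K) := by
    rw [disjoint_left]
    intro z h1 h2
    rw [sg.mem_coset] at h1 h2
    exact hyx (by have := sg.sub _ h1 _ h2; rwa [show z - x - (z - y) = y - x by abel] at this)
  have hcov : (x +ᵥ K) ∪ (y +ᵥ K) = J + K := by
    apply eq_of_subset_of_card_le (union_subset hxK (vadd_finset_subset_add hy))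
    rw [hc, card_union_of_disjoint hdisj, card_vadd_finset, card_vadd_finset]; omega
  have hJK : ∀ a ∈ J, a - x ∈ K ∨ a - x - (y - x) ∈ K := by
    intro a ha
    have := hcov ▸ sg.subset_add J ha
    rcases mem_union.1 this with h | h
    · exact Or.inl (sg.mem_coset.1 h)
    · exact Or.inr (by rw [show a - x - (y - x) = a - y by abel]; exact sg.mem_coset.1 h)
  refine ⟨x, hx, y, hy, hyx, hJK, ?_⟩
  intro r hr0 hr hrK
  apply hyx
  rw [hK, mem_st]
  intro z hz
  obtain ⟨i, hi, h⟩ := nsmul_two sg hJK t z hz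
  have key : ∀ i ≤ t, ∀ w, w - t • x - i • (y - x) ∈ K → w ∈ t • J := by
    intro i hi w hw
    have h1 : (t - i) • x + i • y ∈ t • J := by
      have : t • J = (t - i) • J + i • J := by rw [← add_nsmul]; congr 1; omega
      rw [this]
      exact add_mem_add (nsmul_mem_nsmul hx) (nsmul_mem_nsmul hy)
    have h2 := per_st (t • J) _ h1 _ hw
    have : (t - i) • x + i • y + (w - t • x - i • (y - x)) = w := by
      obtain ⟨j, rfl⟩ := Nat.exists_eq_add_of_le hi
      rw [Nat.add_sub_cancel_left, smul_sub, add_nsmul]; abel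
    rwa [this] at h2
  by_cases hit : i < t
  · apply key (i + 1) (by omega)
    rwa [show z + (y - x) - t • x - (i + 1) • (y - x) = z - t • x - i • (y - x) by
      simp only [add_nsmul, one_nsmul]; abel]
  · obtain ⟨j, hj⟩ := Nat.exists_eq_add_of_le hr
    have hit' : i = t := by omega
    rw [hit'] at h
    apply key j (by omega)
    have e1 : t • (y - x) + (y - x) = r • (y - x) + j • (y - x) := by
      rw [← succ_nsmul, hj, add_nsmul]
    have := sg.add h hrK
    have e2 : r • (y - x) = t • (y - x) + (y - x) - j • (y - x) := eq_sub_of_add_eq e1.symm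
    rw [e2] at this
    rwa [show z - t • x - t • (y - x) + (t • (y - x) + (y - x) - j • (y - x)) =
      z + (y - x) - t • x - j • (y - x) by abel] at this

/-- Two cosets of a subgroup of index `2 m`: no obstruction. -/
theorem twoM [Fintype G] (m t κ : ℕ) (hm : 3 ≤ m) (ht : 3 * m ≤ 2 * t + 1) (ht2 : t + 2 ≤ 2 * m)
    (hT2 : (univ.filter fun x : G => x + x = 0).card ≤ 2 * m) (A J : Finset G)
    (hA : A.card = κ + t) (hJA : ∀ a ∈ J, a ∈ A ∧ 2 * (t + m + m) < (rep A a).card)
    (hne : J.Nonempty) (hd : Fintype.card G = 2 * m * (st (t • J)).card)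
    (hκK : 2 * (st (t • J)).card = κ)
    (hc : (J + st (t • J)).card = 2 * (st (t • J)).card)
    (hbig : 3 * (st (t • J)).card < 2 * J.card) :
    ∃ R ⊆ A, R.card = t ∧ ∑ y ∈ R, y = ∑ y ∈ A, y := by
  classical
  obtain ⟨x, hx, y, hy, hyx, hJK, hord⟩ := twoPre t J hne hc
  set K := st (t • J) with hK
  have sg : Sg K := sg_st _
  set e := y - x with he
  have hfull := full sg hx hy hJK hbig
  -- the order of `e` modulo `K`
  set r := addOrderOf (QuotientAddGroup.mk e : G ⧸ toSub sg) with hr
  have hQ : Nat.card (G ⧸ toSub sg) = 2 * m := by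
    rw [← AddSubgroup.index_eq_card, index_toSub sg hd]
  have hrK : r • e ∈ K := by
    have : ((r • e : G) : G ⧸ toSub sg) = 0 := by
      rw [QuotientAddGroup.mk_nsmul]; exact addOrderOf_nsmul_eq_zero _
    exact (QuotientAddGroup.eq_zero_iff _).1 this
  have hr0 : 0 < r := addOrderOf_pos _
  have hrt : t + 2 ≤ r := by
    by_contra hlt
    exact hord r hr0 (by omega) hrK
  have hr2 : r = 2 * m := by
    have h1 : r ∣ 2 * m := hQ ▸ addOrderOf_dvd_natCard _
    obtain ⟨u, hu⟩ := h1
    rcases u with _ | _ | u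
    · omega
    · omega
    · have : r * (u + 1 + 1) = r * u + 2 * r := by ring
      omega
  have hmem : ∀ z : ℤ, z • e ∈ K ↔ ((2 * m : ℕ) : ℤ) ∣ z := by
    intro z
    rw [← hr2, hr, addOrderOf_dvd_iff_zsmul_eq_zero, ← QuotientAddGroup.mk_zsmul,
      QuotientAddGroup.eq_zero_iff]
    rfl
  have hlev : ∀ g : G, ∃ n < 2 * m, g - n • e ∈ K := by
    intro g
    have htop : AddSubgroup.zmultiples (QuotientAddGroup.mk e : G ⧸ toSub sg) = ⊤ := by
      apply AddSubgroup.eq_top_of_card_eq
      rw [Nat.card_zmultiples, ← hr, hr2, hQ]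
    obtain ⟨z, hz⟩ := AddSubgroup.mem_zmultiples_iff.1
      (show (QuotientAddGroup.mk g : G ⧸ toSub sg) ∈ AddSubgroup.zmultiples _ from htop ▸
        AddSubgroup.mem_top _)
    have hm0 : (0 : ℤ) < (2 * m : ℕ) := by positivity
    refine ⟨(z % (2 * m : ℕ)).toNat, ?_, ?_⟩
    · have := Int.emod_lt_of_pos z hm0
      have := Int.emod_nonneg z hm0.ne'
      omega
    · have h3 : ((z % (2 * m : ℕ)).toNat : ℤ) = z % (2 * m : ℕ) :=
        Int.toNat_of_nonneg (Int.emod_nonneg z hm0.ne')
      have h4 : g - z • e ∈ K := by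
        have : ((g - z • e : G) : G ⧸ toSub sg) = 0 := by
          rw [QuotientAddGroup.mk_sub, QuotientAddGroup.mk_zsmul, hz, sub_self]
        exact (QuotientAddGroup.eq_zero_iff _).1 this
      have h5 : (z - z % (2 * m : ℕ)) • e ∈ K := (hmem _).2 (Int.dvd_self_sub_emod)
      have h6 := sg.add h4 h5
      rw [← natCast_zsmul, h3]
      rwa [show g - z • e + (z - z % (2 * m : ℕ)) • e = g - (z % (2 * m : ℕ)) • e by
        rw [sub_zsmul]; abel] at h6
  choose lev hl1 hl2 using hlev
  have hJlev : ∀ a ∈ J, lev (a - x) < 2 := by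
    intro a ha
    have h1 := hl2 (a - x)
    have h3 := hl1 (a - x)
    by_contra hcon
    rcases hJK a ha with h | h
    · have h4 := sg.sub _ h _ h1
      rw [sub_sub_cancel, ← natCast_zsmul, hmem] at h4
      have := Nat.le_of_dvd (by omega) (Int.natCast_dvd_natCast.1 h4)
      omega
    · have h4 := sg.sub _ h _ h1
      have h5 : ((lev (a - x) - 1 : ℕ) : ℤ) • e ∈ K := by
        rw [show a - x - e - (a - x - lev (a - x) • e) = lev (a - x) • e - e by abel] at h4
        rw [natCast_zsmul]
        have h6 : lev (a - x) • e = (lev (a - x) - 1) • e + e := by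
          rw [← succ_nsmul]; congr 1; omega
        rwa [h6, add_sub_cancel_right] at h4
      rw [hmem] at h5
      have := Nat.le_of_dvd (by omega) (Int.natCast_dvd_natCast.1 h5)
      omega
  set O := A.filter fun a => ¬ lev (a - x) < 2 with hO
  have hOJ : Disjoint O J := by
    rw [disjoint_left]
    intro a h1 h2
    exact (mem_filter.1 h1).2 (hJlev a h2)
  have hOc : t ≤ O.card := by
    have h1 := card_filter_add_card_filter_not (s := A) (fun a => lev (a - x) < 2)
    have h2 : (A.filter fun a => lev (a - x) < 2).card ≤ κ := by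
      have : (A.filter fun a => lev (a - x) < 2) ⊆ (x +ᵥ K) ∪ (y +ᵥ K) := by
        intro a ha
        have h3 := (mem_filter.1 ha).2
        have h4 := hl2 (a - x)
        rcases (show lev (a - x) = 0 ∨ lev (a - x) = 1 by omega) with h5 | h5
        · rw [h5, zero_nsmul, sub_zero] at h4
          exact mem_union_left _ (sg.mem_coset.2 h4)
        · rw [h5, one_nsmul, he, show a - x - (y - x) = a - y by abel] at h4
          exact mem_union_right _ (sg.mem_coset.2 h4)
      refine (card_le_card this).trans ((card_union_le _ _).trans ?_)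
      rw [card_vadd_finset, card_vadd_finset]; omega
    rw [← hO] at h1
    omega
  -- conclusion from a set of exceptional elements
  have fin : ∀ T ⊆ O, T.card + 2 ≤ t → ∀ i ≤ t - T.card,
      (∑ a ∈ A, a - ∑ a ∈ T, a) - (t - T.card) • x - i • e ∈ K →
      ∃ R ⊆ A, R.card = t ∧ ∑ y ∈ R, y = ∑ y ∈ A, y := by
    intro T hT hTc i hi hmemK
    obtain ⟨n, hn⟩ : ∃ n, t - T.card = n + 2 := ⟨t - T.card - 2, by omega⟩
    rw [hn] at hi hmemK
    have h1 := hfull n i hi _ hmemK
    obtain ⟨R, hR, r1, r2⟩ := fixT (2 * m) hT2 A T J (t + m - T.card) (n + 2) (by omega) (by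
      intro a ha
      obtain ⟨a1, a2⟩ := hJA a ha
      refine ⟨a1, fun haT => (disjoint_left.1 hOJ) (hT haT) ha, ?_⟩
      rw [Nat.sub_add_cancel (by omega)]; omega) _ h1
    have hdis : Disjoint T R := disjoint_sdiff.mono_right hR
    refine ⟨T ∪ R, union_subset (hT.trans (filter_subset _ _)) (hR.trans sdiff_subset), ?_, ?_⟩
    · rw [card_union_of_disjoint hdis, r1]; omega
    · rw [sum_union hdis, r2]; abel
  set ζ := lev (∑ a ∈ A, a - t • x) with hζ
  have hζ1 : ∑ a ∈ A, a - t • x - ζ • e ∈ K := hl2 _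
  have hζ2 : ζ < 2 * m := hl1 _
  by_cases hζt : ζ ≤ t
  · exact fin ∅ (empty_subset _) (by rw [card_empty]; omega) ζ (by rw [card_empty]; exact hζt)
      (by rw [card_empty, sum_empty, sub_zero, Nat.sub_zero]; exact hζ1)
  · obtain ⟨T, hT, hTc, i, hi, hdv⟩ := levels m t ζ hm ht ht2 (by omega) hζ2 O hOc
      (fun o => lev (o - x)) (fun o ho => ⟨not_lt.1 (mem_filter.1 ho).2, hl1 _⟩)
    refine fin T hT hTc i hi ?_
    have h1 : ∑ a ∈ T, (a - x - lev (a - x) • e) ∈ K :=
      (toSub sg).sum_mem (t := T) fun a _ => hl2 (a - x)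
    rw [sum_sub_distrib, sum_sub_distrib, sum_const, ← sum_smul] at h1
    have h2 := (hmem _).2 hdv
    have h3 := sg.add (sg.sub _ hζ1 _ h1) h2
    have h4 : t • x = T.card • x + (t - T.card) • x := by
      rw [← add_nsmul]; congr 1; omega
    rw [sub_zsmul, sub_zsmul, natCast_zsmul, natCast_zsmul, natCast_zsmul, h4] at h3
    convert h3 using 1
    abel

end Pool.Agent.Helper99.Harb
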