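import Mathlib
import Pool.Agent.Helper99.Harb.TwoM

namespace Pool.Agent.Helper99.Harb

open Finset Pointwise Pool.Agent.H2.Kneser H25.Harb

variable {G : Type} [AddCommGroup G] [DecidableEq G] [Fintype G]

theorem upper2 (m t : ℕ) (hm : 3 ≤ m) (ht : 3 * m ≤ 2 * t + 1) (ht2 : t + 2 ≤ 2 * m) : ∃ k0 : ℕ, ∀ κ, k0 ≤ κ →
    ∀ (G : Type) [AddCommGroup G] [DecidableEq G] [Fintype G],
    (univ.filter fun x : G => x + x = 0).card ≤ 2 * m → Fintype.card G = m * κ →
    (∀ x : G, κ • x = 0) → (∀ q, q ∣ κ → t + 2 ≤ q → q < 2 * m → False) →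
    ∀ A : Finset G, A.card = κ + t → ∃ R ⊆ A, R.card = t ∧ ∑ y ∈ R, y = ∑ y ∈ A, y := by
  obtain ⟨n0, hn0⟩ := badsmall (t + m + m) (3 * m ^ 2 + m + 1) (by positivity)
  refine ⟨n0 + 1, fun κ hk G _ _ _ h2 hG hκ hq A hA => ?_⟩
  have hb := hn0 G (by rw [hG]; nlinarith) A
  have hsp := card_filter_add_card_filter_not (s := A) (fun a => 2 * (t + m + m) < (rep A a).card)
  set J := A.filter fun a => 2 * (t + m + m) < (rep A a).card with hJ
  generalize (A.filter fun a => ¬ 2 * (t + m + m) < (rep A a).card).card = b at *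
  have dens : (3 * m ^ 2 + 1) * κ ≤ (3 * m ^ 2 + m + 1) * J.card := by
    rw [hG] at hb
    have : (3 * m ^ 2 + m + 1) * (J.card + b) = (3 * m ^ 2 + m + 1) * (κ + t) := by rw [hsp, hA]
    nlinarith
  have hκ0 : 0 < κ := by omega
  have hne : J.Nonempty := by
    rw [← card_pos]
    by_contra h0
    have h0' : J.card = 0 := by omega
    rw [h0', mul_zero] at dens
    have : 0 < (3 * m ^ 2 + 1) * κ := by positivity
    omega
  by_cases hall : t • J = univ
  · obtain ⟨R, hR, r1, r2⟩ := fixT (2 * m) h2 A ∅ J (t + m) t (by omega) (by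
      intro a ha
      obtain ⟨a1, a2⟩ := mem_filter.1 ha
      exact ⟨a1, notMem_empty _, by rw [card_empty]; omega⟩) (∑ y ∈ A, y) (by
        rw [hall]; exact mem_univ _)
    exact ⟨R, hR.trans sdiff_subset, r1, r2⟩
  obtain ⟨h, rfl⟩ : ∃ h, t = h + 1 := ⟨t - 1, by omega⟩
  obtain ⟨d, c, h1, h3, h4, h5⟩ := kneser_num hne h hall
  set K := st ((h + 1) • J) with hK
  have sg : Sg K := sg_st _
  have hp := sg.pos
  have h6 : J.card ≤ c * K.card := by rw [← h3]; exact card_le_card (sg.subset_add J)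
  have h7 : (3 * m ^ 2 + 1) * d ≤ (3 * m ^ 2 + m + 1) * (c * m) := by
    have : κ * ((3 * m ^ 2 + 1) * d) ≤ κ * ((3 * m ^ 2 + m + 1) * (c * m)) := by
      calc κ * ((3 * m ^ 2 + 1) * d) = ((3 * m ^ 2 + 1) * κ) * d := by ring
        _ ≤ ((3 * m ^ 2 + m + 1) * J.card) * d := Nat.mul_le_mul_right _ dens
        _ ≤ ((3 * m ^ 2 + m + 1) * (c * K.card)) * d :=
          Nat.mul_le_mul_right _ (Nat.mul_le_mul_left _ h6)
        _ = (3 * m ^ 2 + m + 1) * c * (d * K.card) := by ring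
        _ = (3 * m ^ 2 + m + 1) * c * (m * κ) := by rw [← h1, hG]
        _ = κ * ((3 * m ^ 2 + m + 1) * (c * m)) := by ring
    exact Nat.le_of_mul_le_mul_left this hκ0
  rcases (show c = 1 ∨ c = 2 ∨ 3 ≤ c by omega) with rfl | rfl | hc3
  · -- one coset
    have hdm := num1 h7
    obtain ⟨x, hx⟩ := hne
    have he : x +ᵥ K = J + K := eq_of_subset_of_card_le (vadd_finset_subset_add hx)
      (by rw [h3, one_mul, card_vadd_finset])
    have hJK : ∀ a ∈ J, a - x ∈ K := fun a ha => sg.mem_coset.1 (he ▸ sg.subset_add J ha)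
    have hJA : J ⊆ A := filter_subset _ _
    obtain ⟨Z, hZ, z1, z2⟩ := dav (toSub sg) (fun o => o - x) _ (A \ J) rfl
    rw [index_toSub sg h1] at z2
    have z1' : ∑ y ∈ Z, (y - x) ∈ K := z1
    set T := (A \ J) \ Z with hT
    have c1 := card_sdiff_of_subset hJA
    have c2 := card_sdiff_of_subset hZ
    have c3 := card_le_card hZ
    have c4 := card_le_card hJA
    rw [← hT] at c2
    obtain ⟨h', hh'⟩ : ∃ h', h + 1 = T.card + (h' + 1) := ⟨h + 1 - T.card - 1, by omega⟩
    have hTA : T ⊆ A := sdiff_subset.trans sdiff_subset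
    have hfull : K.card ≤ ((h + 1) • J).card := by
      obtain ⟨y, hy⟩ : ((h + 1) • J).Nonempty := ⟨_, nsmul_mem_nsmul hx⟩
      rw [← card_vadd_finset y K]
      apply card_le_card
      intro z hz
      have := per_st ((h + 1) • J) y hy _ (sg.mem_coset.1 hz)
      rwa [add_sub_cancel] at this
    have hw := fill m κ d (h + 1) h' hm ht (by omega) hdm (by omega) K J sg x ⟨x, hx⟩ hJK hfull
      (by rw [← h1, hG]) hκ0 dens (∑ y ∈ A, y - ∑ y ∈ T, y) (by
        have e1 := sg.add z1' (show ∑ y ∈ J, (y - x) ∈ K from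
          (toSub sg).sum_mem (t := J) fun a ha => hJK a ha)
        rw [sum_sub_distrib, sum_sub_distrib, sum_const, sum_const] at e1
        have e2 : Z.card + J.card = κ + (h' + 1) := by omega
        have e3 : Z.card • x + J.card • x = (h' + 1) • x := by
          rw [← add_nsmul, e2, add_nsmul, hκ, zero_add]
        have e4 : ∑ y ∈ A, y = ∑ y ∈ T, y + ∑ y ∈ Z, y + ∑ y ∈ J, y := by
          rw [← sum_sdiff hJA, ← sum_sdiff hZ]
        rw [e4, ← e3]
        rwa [show ∑ y ∈ T, y + ∑ y ∈ Z, y + ∑ y ∈ J, y - ∑ y ∈ T, y - (Z.card • x + J.card • x) =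
          ∑ y ∈ Z, y - Z.card • x + (∑ y ∈ J, y - J.card • x) by abel])
    obtain ⟨R, hR, r1, r2⟩ := fixT (2 * m) h2 A T J (h + 1 + m - T.card) (h' + 1) (by omega) (by
      intro a ha
      obtain ⟨a1, a2⟩ := mem_filter.1 ha
      refine ⟨a1, fun haT => (mem_sdiff.1 (mem_sdiff.1 haT).1).2 ha, ?_⟩
      rw [Nat.sub_add_cancel (by omega)]; omega) _ hw
    have hdis : Disjoint T R := disjoint_sdiff.mono_right hR
    refine ⟨T ∪ R, union_subset hTA (hR.trans sdiff_subset), ?_, ?_⟩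
    · rw [card_union_of_disjoint hdis, r1, hh']
    · rw [sum_union hdis, r2]; abel
  · -- two cosets
    have hdm := num2 h7
    obtain ⟨q1, q2⟩ := two (h + 1) κ d hκ J hne h1 h3 (by omega)
    rcases Nat.lt_or_ge d (2 * m) with hlt | hge
    · exact (hq d q1 q2 hlt).elim
    have hd2 : d = 2 * m := le_antisymm hdm hge
    rw [hd2] at h1
    have hκK : 2 * K.card = κ := by
      have : m * (2 * K.card) = m * κ := by rw [← hG, h1]; ring
      exact Nat.eq_of_mul_eq_mul_left (by omega) this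
    exact twoM m (h + 1) κ hm ht ht2 h2 A J hA
      (fun a ha => ⟨(mem_filter.1 ha).1, (mem_filter.1 ha).2⟩) hne h1 hκK h3 (by
        by_contra hcon
        have a1 := Nat.mul_le_mul_left (3 * m ^ 2 + m + 1) (not_lt.1 hcon)
        have a2 : (3 * m ^ 2 + 1) * (2 * (2 * K.card)) ≤ (3 * m ^ 2 + m + 1) * (2 * J.card) := by
          rw [hκK]; nlinarith
        have a3 := (a2.trans a1)
        have a4 : (3 * m ^ 2 + 1) * 4 ≤ (3 * m ^ 2 + m + 1) * 3 := by
          have : K.card * ((3 * m ^ 2 + 1) * 4) ≤ K.card * ((3 * m ^ 2 + m + 1) * 3) := by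
            nlinarith
          exact Nat.le_of_mul_le_mul_left this hp
        nlinarith)
  · exact (num3 hm ht hc3 (by simpa using h5) h7).elim

end Pool.Agent.Helper99.Harb
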