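import Mathlib
import Pool.Agent.Helper99.Harb.Upper

namespace Pool.Agent.Helper99.Harb

open Finset Pointwise Pool.Agent.H2.Kneser H25.Harb

variable {G : Type} [AddCommGroup G] [DecidableEq G] [Fintype G]

theorem numN3 {m n N : ℕ} (hN : 2 ≤ N) (_hm : 1 ≤ m) (hNm : N ≤ m)
    (hn : m + 2 ≤ n + N) : 2 * m ≤ N * n := by
  obtain ⟨a, rfl⟩ : ∃ a, N = 2 + a := ⟨N - 2, by omega⟩
  obtain ⟨b, rfl⟩ : ∃ b, m = 2 + a + b := ⟨m - (2 + a), by omega⟩
  have h : 2 + b ≤ n := by omega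
  have h3 := Nat.mul_le_mul_left (2 + a) h
  nlinarith [Nat.zero_le (a * b)]

theorem numC {m t c d : ℕ} (hm : 3 ≤ m) (ht : m + 1 ≤ t) (hc : 2 ≤ c)
    (h1 : t * c + 1 ≤ d + (t - 1))
    (h2 : (2 * m ^ 3 + 3 * m ^ 2 + 1) * d ≤ (2 * m ^ 3 + 3 * m ^ 2 + m + 1) * (c * m)) :
    d ≤ m * c := by
  by_contra hcon
  have hcon' : m * c + 1 ≤ d := by omega
  have a1 : 2 * m ^ 3 + 3 * m ^ 2 + 1 ≤ c * m ^ 2 := by
    have := Nat.mul_le_mul_left (2 * m ^ 3 + 3 * m ^ 2 + 1) hcon'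
    nlinarith
  have a2 : 2 * m + 3 ≤ c := by
    by_contra hlt
    have : c * m ^ 2 ≤ (2 * m + 2) * m ^ 2 := Nat.mul_le_mul_right _ (by omega)
    nlinarith
  obtain ⟨e, rfl⟩ : ∃ e, c = 2 * m + 3 + e := ⟨c - (2 * m + 3), by omega⟩
  have a3 : t * (2 * m + 2 + e) + 2 ≤ d := by
    have : t * (2 * m + 3 + e) = t * (2 * m + 2 + e) + t := by ring
    omega
  have a4 : (m + 1) * (2 * m + 2 + e) + 2 ≤ d := by
    have := Nat.mul_le_mul_right (2 * m + 2 + e) ht
    omega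
  have a5 := (Nat.mul_le_mul_left (2 * m ^ 3 + 3 * m ^ 2 + 1) a4).trans h2
  obtain ⟨a, rfl⟩ : ∃ a, m = 3 + a := ⟨m - 3, by omega⟩
  ring_nf at a5
  nlinarith [Nat.zero_le (a * e), Nat.zero_le (a ^ 2 * e), Nat.zero_le (a ^ 3 * e)]

theorem fill3 (m κ N t h : ℕ) (hm : 3 ≤ m) (hN : 2 ≤ N)
    (hn : 2 * m ≤ N * (h + 1)) (K J : Finset G) (sK : Sg K) (x : G) (hJne : J.Nonempty)
    (hJK : ∀ a ∈ J, a - x ∈ K) (hfull : K.card ≤ (t • J).card) (hcard : N * K.card = m * κ)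
    (hκ0 : 0 < κ) (hdens : (3 * m ^ 2 + 1) * κ ≤ (3 * m ^ 2 + m + 1) * J.card) :
    ∀ z, z - (h + 1) • x ∈ K → z ∈ (h + 1) • J := by
  by_contra hcon
  push Not at hcon
  obtain ⟨z0, hz0, hz0'⟩ := hcon
  have kn := kneser_nsmul hJne h
  set S := st ((h + 1) • J) with hS
  have sS : Sg S := sg_st _
  have hnJ := nsmul_coset sK hJK (h + 1)
  have hne : ((h + 1) • J).Nonempty := hJne.nsmul
  have hSK : S ⊆ K := by
    intro s hs
    obtain ⟨z, hz⟩ := hne
    have h1 := hnJ z hz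
    have h2 := hnJ (z + s) (mem_st.1 hs z hz)
    have := sK.sub _ h2 _ h1
    rwa [show z + s - (h + 1) • x - (z - (h + 1) • x) = s by abel] at this
  have pK : Per S K := fun x hx k hk => sK.add hx (hSK hk)
  obtain ⟨d, hd⟩ := Per.card_dvd sS pK
  obtain ⟨c, hc⟩ := (sS.per_add J).card_dvd sS
  obtain ⟨c2, hc2⟩ := (per_st ((h + 1) • J)).card_dvd sS
  have hlt : ((h + 1) • J).card < K.card := by
    refine lt_of_le_of_lt (card_le_card_of_injOn (t := K.erase (z0 - (h + 1) • x))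
      (fun z => z - (h + 1) • x) ?_ sub_left_injective.injOn) (card_erase_lt_of_mem hz0)
    intro z hz
    refine mem_coe.2 (mem_erase.2 ⟨fun e => hz0' ?_, hnJ z (mem_coe.1 hz)⟩)
    have : z = z0 := sub_left_injective e
    exact this ▸ mem_coe.1 hz
  have hp := sS.pos
  have hc2d : c2 < d := by
    rw [hd, hc2] at hlt; exact Nat.lt_of_mul_lt_mul_left hlt
  have hc2p : 0 < c2 := by
    have := card_pos.2 hne
    rw [hc2] at this; exact Nat.pos_of_mul_pos_left this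
  have h1 : (h + 1) * c + 1 ≤ d + (h + 1 - 1) := by
    rw [hc, hc2] at kn
    have : (h + 1) * c ≤ c2 + h := Nat.le_of_mul_le_mul_left (c := S.card) (by nlinarith) hp
    omega
  have hc1 : 2 ≤ c := by
    by_contra hlt1
    have hcc : c ≤ 1 := by omega
    obtain ⟨x', hx'⟩ := hJne
    have he : x' +ᵥ S = J + S := eq_of_subset_of_card_le (vadd_finset_subset_add hx')
      (by rw [hc, card_vadd_finset]; nlinarith)
    have hJS : ∀ a ∈ J, a - x' ∈ S := fun a ha => sS.mem_coset.1 (he ▸ sS.subset_add J ha)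
    have h3 : (t • J).card ≤ S.card := by
      apply card_le_card_of_injOn (fun z => z - t • x') _ sub_left_injective.injOn
      intro z hz
      exact mem_coe.2 (nsmul_coset sS hJS t z (mem_coe.1 hz))
    have h4 : S.card * d ≤ S.card * 1 := by rw [← hd]; omega
    have := Nat.le_of_mul_le_mul_left h4 hp
    omega
  refine num4 hm hN hc1 hn h1 (by omega) ?_
  have h6 : J.card ≤ S.card * c := by
    rw [← hc]; exact card_le_card (sS.subset_add J)
  have h7 : κ * ((3 * m ^ 2 + 1) * (N * d)) ≤ κ * ((3 * m ^ 2 + m + 1) * (c * m)) := by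
    calc κ * ((3 * m ^ 2 + 1) * (N * d)) = ((3 * m ^ 2 + 1) * κ) * (N * d) := by ring
      _ ≤ ((3 * m ^ 2 + m + 1) * J.card) * (N * d) := Nat.mul_le_mul_right _ hdens
      _ ≤ ((3 * m ^ 2 + m + 1) * (S.card * c)) * (N * d) :=
        Nat.mul_le_mul_right _ (Nat.mul_le_mul_left _ h6)
      _ = (3 * m ^ 2 + m + 1) * c * (N * (S.card * d)) := by ring
      _ = (3 * m ^ 2 + m + 1) * c * (m * κ) := by rw [← hd, hcard]
      _ = κ * ((3 * m ^ 2 + m + 1) * (c * m)) := by ring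
  exact Nat.le_of_mul_le_mul_left h7 hκ0


theorem upper3 (m t : ℕ) (hm : 3 ≤ m) (ht : m + 1 ≤ t) : ∃ k0 : ℕ, ∀ κ, k0 ≤ κ →
    ∀ (G : Type) [AddCommGroup G] [DecidableEq G] [Fintype G],
    (univ.filter fun x : G => x + x = 0).card ≤ 2 * m → Fintype.card G = m * κ →
    (∀ x : G, κ • x = 0) → (∀ N c, 2 ≤ c → N ∣ m * κ → t * c + 2 ≤ N + t → N ≤ m * c → False) →
    ∀ A : Finset G, A.card = κ + t → ∃ R ⊆ A, R.card = t ∧ ∑ y ∈ R, y = ∑ y ∈ A, y := by
  obtain ⟨n0, hn0⟩ := badsmall (t + m + m) (2 * m ^ 3 + 3 * m ^ 2 + m + 1) (by positivity)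
  refine ⟨n0 + 1, fun κ hk G _ _ _ h2 hG hκ hq A hA => ?_⟩
  have hb := hn0 G (by rw [hG]; nlinarith) A
  have hsp := card_filter_add_card_filter_not (s := A) (fun a => 2 * (t + m + m) < (rep A a).card)
  set J := A.filter fun a => 2 * (t + m + m) < (rep A a).card with hJ
  generalize (A.filter fun a => ¬ 2 * (t + m + m) < (rep A a).card).card = b at *
  have dens' : (2 * m ^ 3 + 3 * m ^ 2 + 1) * κ ≤ (2 * m ^ 3 + 3 * m ^ 2 + m + 1) * J.card := by
    rw [hG] at hb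
    obtain ⟨E, hE⟩ : ∃ E, E = 2 * m ^ 3 + 3 * m ^ 2 + 1 := ⟨_, rfl⟩
    have e1 : 2 * m ^ 3 + 3 * m ^ 2 + m + 1 = E + m := by omega
    rw [← hE, e1]
    rw [e1] at hb
    have : (E + m) * (J.card + b) = (E + m) * (κ + t) := by rw [hsp, hA]
    nlinarith [Nat.zero_le (E * t), Nat.zero_le (m * t)]
  have dens : (3 * m ^ 2 + 1) * κ ≤ (3 * m ^ 2 + m + 1) * J.card := by
    rw [hG] at hb
    have h8 : (3 * m ^ 2 + m + 1) * b ≤ (2 * m ^ 3 + 3 * m ^ 2 + m + 1) * b :=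
      Nat.mul_le_mul_right _ (by omega)
    have : (3 * m ^ 2 + m + 1) * (J.card + b) = (3 * m ^ 2 + m + 1) * (κ + t) := by rw [hsp, hA]
    nlinarith
  have hκ0 : 0 < κ := by omega
  have hne : J.Nonempty := by
    rw [← card_pos]
    by_contra h0
    have h0' : J.card = 0 := by omega
    rw [h0', mul_zero] at dens
    have : 0 < (3 * m ^ 2 + 1) * κ := by positivity
    omega
  by_cases hall : t • J = univ
  · obtain ⟨R, hR, r1, r2⟩ := fixT (2 * m) h2 A ∅ J (t + m) t (by omega) (by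
      intro a ha
      obtain ⟨a1, a2⟩ := mem_filter.1 ha
      exact ⟨a1, notMem_empty _, by rw [card_empty]; omega⟩) (∑ y ∈ A, y) (by
        rw [hall]; exact mem_univ _)
    exact ⟨R, hR.trans sdiff_subset, r1, r2⟩
  obtain ⟨h, rfl⟩ : ∃ h, t = h + 1 := ⟨t - 1, by omega⟩
  obtain ⟨d, c, h1, h3, h4, h5⟩ := kneser_num hne h hall
  set K := st ((h + 1) • J) with hK
  have sg : Sg K := sg_st _
  have hp := sg.pos
  have h6 : J.card ≤ c * K.card := by rw [← h3]; exact card_le_card (sg.subset_add J)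
  have h7 : (3 * m ^ 2 + 1) * d ≤ (3 * m ^ 2 + m + 1) * (c * m) := by
    have : κ * ((3 * m ^ 2 + 1) * d) ≤ κ * ((3 * m ^ 2 + m + 1) * (c * m)) := by
      calc κ * ((3 * m ^ 2 + 1) * d) = ((3 * m ^ 2 + 1) * κ) * d := by ring
        _ ≤ ((3 * m ^ 2 + m + 1) * J.card) * d := Nat.mul_le_mul_right _ dens
        _ ≤ ((3 * m ^ 2 + m + 1) * (c * K.card)) * d :=
          Nat.mul_le_mul_right _ (Nat.mul_le_mul_left _ h6)
        _ = (3 * m ^ 2 + m + 1) * c * (d * K.card) := by ring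
        _ = (3 * m ^ 2 + m + 1) * c * (m * κ) := by rw [← h1, hG]
        _ = κ * ((3 * m ^ 2 + m + 1) * (c * m)) := by ring
    exact Nat.le_of_mul_le_mul_left this hκ0
  have h7' : (2 * m ^ 3 + 3 * m ^ 2 + 1) * d ≤ (2 * m ^ 3 + 3 * m ^ 2 + m + 1) * (c * m) := by
    have : κ * ((2 * m ^ 3 + 3 * m ^ 2 + 1) * d) ≤ κ * ((2 * m ^ 3 + 3 * m ^ 2 + m + 1) * (c * m)) := by
      calc κ * ((2 * m ^ 3 + 3 * m ^ 2 + 1) * d) = ((2 * m ^ 3 + 3 * m ^ 2 + 1) * κ) * d := by ring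
        _ ≤ ((2 * m ^ 3 + 3 * m ^ 2 + m + 1) * J.card) * d := Nat.mul_le_mul_right _ dens'
        _ ≤ ((2 * m ^ 3 + 3 * m ^ 2 + m + 1) * (c * K.card)) * d :=
          Nat.mul_le_mul_right _ (Nat.mul_le_mul_left _ h6)
        _ = (2 * m ^ 3 + 3 * m ^ 2 + m + 1) * c * (d * K.card) := by ring
        _ = (2 * m ^ 3 + 3 * m ^ 2 + m + 1) * c * (m * κ) := by rw [← h1, hG]
        _ = κ * ((2 * m ^ 3 + 3 * m ^ 2 + m + 1) * (c * m)) := by ring
    exact Nat.le_of_mul_le_mul_left this hκ0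
  rcases (show c = 1 ∨ 2 ≤ c by omega) with rfl | hc3
  · -- one coset
    have hdm := num1 h7
    obtain ⟨x, hx⟩ := hne
    have he : x +ᵥ K = J + K := eq_of_subset_of_card_le (vadd_finset_subset_add hx)
      (by rw [h3, one_mul, card_vadd_finset])
    have hJK : ∀ a ∈ J, a - x ∈ K := fun a ha => sg.mem_coset.1 (he ▸ sg.subset_add J ha)
    have hJA : J ⊆ A := filter_subset _ _
    obtain ⟨Z, hZ, z1, z2⟩ := dav (toSub sg) (fun o => o - x) _ (A \ J) rfl
    rw [index_toSub sg h1] at z2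
    have z1' : ∑ y ∈ Z, (y - x) ∈ K := z1
    set T := (A \ J) \ Z with hT
    have c1 := card_sdiff_of_subset hJA
    have c2 := card_sdiff_of_subset hZ
    have c3 := card_le_card hZ
    have c4 := card_le_card hJA
    rw [← hT] at c2
    obtain ⟨h', hh'⟩ : ∃ h', h + 1 = T.card + (h' + 1) := ⟨h + 1 - T.card - 1, by omega⟩
    have hTA : T ⊆ A := sdiff_subset.trans sdiff_subset
    have hfull : K.card ≤ ((h + 1) • J).card := by
      obtain ⟨y, hy⟩ : ((h + 1) • J).Nonempty := ⟨_, nsmul_mem_nsmul hx⟩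
      rw [← card_vadd_finset y K]
      apply card_le_card
      intro z hz
      have := per_st ((h + 1) • J) y hy _ (sg.mem_coset.1 hz)
      rwa [add_sub_cancel] at this
    have hw := fill3 m κ d (h + 1) h' hm (by omega) (numN3 (by omega) (by omega) hdm (by omega)) K J sg x ⟨x, hx⟩ hJK hfull
      (by rw [← h1, hG]) hκ0 dens (∑ y ∈ A, y - ∑ y ∈ T, y) (by
        have e1 := sg.add z1' (show ∑ y ∈ J, (y - x) ∈ K from
          (toSub sg).sum_mem (t := J) fun a ha => hJK a ha)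
        rw [sum_sub_distrib, sum_sub_distrib, sum_const, sum_const] at e1
        have e2 : Z.card + J.card = κ + (h' + 1) := by omega
        have e3 : Z.card • x + J.card • x = (h' + 1) • x := by
          rw [← add_nsmul, e2, add_nsmul, hκ, zero_add]
        have e4 : ∑ y ∈ A, y = ∑ y ∈ T, y + ∑ y ∈ Z, y + ∑ y ∈ J, y := by
          rw [← sum_sdiff hJA, ← sum_sdiff hZ]
        rw [e4, ← e3]
        rwa [show ∑ y ∈ T, y + ∑ y ∈ Z, y + ∑ y ∈ J, y - ∑ y ∈ T, y - (Z.card • x + J.card • x) =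
          ∑ y ∈ Z, y - Z.card • x + (∑ y ∈ J, y - J.card • x) by abel])
    obtain ⟨R, hR, r1, r2⟩ := fixT (2 * m) h2 A T J (h + 1 + m - T.card) (h' + 1) (by omega) (by
      intro a ha
      obtain ⟨a1, a2⟩ := mem_filter.1 ha
      refine ⟨a1, fun haT => (mem_sdiff.1 (mem_sdiff.1 haT).1).2 ha, ?_⟩
      rw [Nat.sub_add_cancel (by omega)]; omega) _ hw
    have hdis : Disjoint T R := disjoint_sdiff.mono_right hR
    refine ⟨T ∪ R, union_subset hTA (hR.trans sdiff_subset), ?_, ?_⟩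
    · rw [card_union_of_disjoint hdis, r1, hh']
    · rw [sum_union hdis, r2]; abel
  · refine (hq d c hc3 (by rw [← hG, h1]; exact dvd_mul_right _ _) (by omega) ?_).elim
    exact numC hm (by omega) hc3 (by simpa using h5) h7'

end Pool.Agent.Helper99.Harb
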